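import Pool.Agent.K6.H77.KT.Tot

/-!
# Project LT (helper77): virtually solvable modulo a subgroup
-/

set_option autoImplicit false

namespace Pool.Agent.K6.H77.LT

open Pool.Agent.K6.H77.KT

open scoped commutatorElement

/-- Some derived subgroup of some subgroup of finite index is in `K`. -/
def VSK {H : Type} [Group H] (K : Subgroup H) : Prop :=
  ∃ S : Subgroup H, S.FiniteIndex ∧ ∃ n, dser S n ≤ K

theorem dser_anti {H : Type} [Group H] (S : Subgroup H) {m n : ℕ} (h : m ≤ n) :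
    dser S n ≤ dser S m := by
  induction h with
  | refl => exact le_rfl
  | step _ ih =>
    refine le_trans ?_ ih
    exact Subgroup.commutator_le_self _

theorem VSK.mono {H : Type} [Group H] {K K' : Subgroup H} (h : VSK K) (hK : K ≤ K') : VSK K' := by
  obtain ⟨S, hS, n, hn⟩ := h
  exact ⟨S, hS, n, hn.trans hK⟩

theorem VSK.inf {H : Type} [Group H] {K K' : Subgroup H} (h : VSK K) (h' : VSK K') :
    VSK (K ⊓ K') := by
  obtain ⟨S, hS, n, hn⟩ := h
  obtain ⟨S', hS', n', hn'⟩ := h'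
  refine ⟨S ⊓ S', inferInstance, max n n', le_inf ?_ ?_⟩
  · exact (dser_anti _ (le_max_left n n')).trans ((dser_mono inf_le_left n).trans hn)
  · exact (dser_anti _ (le_max_right n n')).trans ((dser_mono inf_le_right n').trans hn')

theorem VSK.comm {H : Type} [Group H] {K K' : Subgroup H} (h : VSK K)
    (hK : ∀ x ∈ K, ∀ y ∈ K, ⁅x, y⁆ ∈ K') : VSK K' := by
  obtain ⟨S, hS, n, hn⟩ := h
  refine ⟨S, hS, n + 1, ?_⟩
  refine (Subgroup.commutator_mono hn hn).trans ?_
  rw [Subgroup.commutator_le]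
  exact hK

theorem vsk_of_range {H Q : Type} [Group H] [Group Q] {f : H →* Q} (h : VirtSolvable f.range) :
    VSK f.ker := by
  obtain ⟨A, hA, hAs⟩ := h
  obtain ⟨n, hn⟩ := dser_eq_bot hAs
  refine ⟨A.comap f.rangeRestrict, Pool.Agent.K6.H86.QS.comap_fi _ hA, n, ?_⟩
  intro x hx
  have h1 : f x ∈ (dser (A.comap f.rangeRestrict) n).map f := ⟨x, hx, rfl⟩
  rw [dser_map] at h1
  have h2 : (A.comap f.rangeRestrict).map f ≤ A.map f.range.subtype := by
    rintro _ ⟨y, hy, rfl⟩
    exact ⟨f.rangeRestrict y, hy, rfl⟩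
  have h3 := dser_mono h2 n h1
  rw [← dser_map, hn, Subgroup.map_bot, Subgroup.mem_bot] at h3
  exact h3

theorem range_of_vsk {H Q : Type} [Group H] [Group Q] {f : H →* Q} (h : VSK f.ker) :
    VirtSolvable f.range := by
  obtain ⟨S, hS, n, hn⟩ := h
  refine ⟨S.map f.rangeRestrict, map_fi f.rangeRestrict_surjective hS, ?_⟩
  refine solvable_of_dser (n := n) (le_bot_iff.1 ?_)
  rw [← dser_map]
  rintro _ ⟨x, hx, rfl⟩
  have h1 : f x = 1 := hn hx
  rw [Subgroup.mem_bot]
  exact Subtype.ext h1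

theorem range_ker {H Q R : Type} [Group H] [Group Q] [Group R] {f : H →* Q} {g : H →* R}
    (h : f.ker ≤ g.ker) (hf : VirtSolvable f.range) : VirtSolvable g.range :=
  range_of_vsk ((vsk_of_range hf).mono h)

end Pool.Agent.K6.H77.LT
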