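import Pool.Agent.K6.H77.LT.Stm

/-!
# Pieces DESC and PAD of project LT (helper70)
-/

set_option autoImplicit false

namespace Pool.Agent.K6.H77.LT

open Topology Matrix

theorem desc : S_DESC := by
  classical
  intro Q _ hQ k _ n ρ
  obtain ⟨T, hT⟩ := hQ.out
  refine ⟨(T ×ˢ (Finset.univ : Finset (Fin n)) ×ˢ (Finset.univ : Finset (Fin n))).image
      (fun a => ((ρ a.1 : GL (Fin n) k) : Matrix (Fin n) (Fin n) k) a.2.1 a.2.2) ∪
    (T ×ˢ (Finset.univ : Finset (Fin n)) ×ˢ (Finset.univ : Finset (Fin n))).image
      (fun a => (((ρ a.1)⁻¹ : GL (Fin n) k) : Matrix (Fin n) (Fin n) k) a.2.1 a.2.2), ?_⟩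
  intro R _ φ hφ hs
  have hinj : Function.Injective (Matrix.GeneralLinearGroup.map (n := Fin n) φ) := by
    intro a b hab
    apply Units.ext
    ext i j
    apply hφ
    have := congrArg (fun g : GL (Fin n) k => (g : Matrix (Fin n) (Fin n) k) i j) hab
    simpa using this
  have hmem : ∀ q : Q, ρ q ∈ (Matrix.GeneralLinearGroup.map (n := Fin n) φ).range := by
    have h1 : Subgroup.closure (T : Set Q) ≤
        ((Matrix.GeneralLinearGroup.map (n := Fin n) φ).range).comap ρ := by
      rw [Subgroup.closure_le]
      intro t ht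
      have hA : ∀ i j, ∃ r : R, φ r = ((ρ t : GL (Fin n) k) : Matrix (Fin n) (Fin n) k) i j := by
        intro i j
        apply hs
        apply Finset.mem_union_left
        rw [Finset.mem_image]
        exact ⟨(t, i, j), by simpa using ht, rfl⟩
      have hB : ∀ i j, ∃ r : R, φ r = (((ρ t)⁻¹ : GL (Fin n) k) : Matrix (Fin n) (Fin n) k) i j := by
        intro i j
        apply hs
        apply Finset.mem_union_right
        rw [Finset.mem_image]
        exact ⟨(t, i, j), by simpa using ht, rfl⟩
      choose A hA using hA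
      choose B hB using hB
      have hA' : (Matrix.of A).map φ = ((ρ t : GL (Fin n) k) : Matrix (Fin n) (Fin n) k) := by
        ext i j; exact hA i j
      have hB' : (Matrix.of B).map φ = (((ρ t)⁻¹ : GL (Fin n) k) : Matrix (Fin n) (Fin n) k) := by
        ext i j; exact hB i j
      have hmapinj : ∀ X Y : Matrix (Fin n) (Fin n) R, X.map φ = Y.map φ → X = Y := by
        intro X Y h
        ext i j
        apply hφ
        exact congrFun (congrFun h i) j
      have hAB : Matrix.of A * Matrix.of B = 1 := by
        apply hmapinj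
        rw [Matrix.map_mul, hA', hB', ← Units.val_mul, mul_inv_cancel, Units.val_one,
          Matrix.map_one _ (map_zero φ) (map_one φ)]
      have hBA : Matrix.of B * Matrix.of A = 1 := by
        apply hmapinj
        rw [Matrix.map_mul, hA', hB', ← Units.val_mul, inv_mul_cancel, Units.val_one,
          Matrix.map_one _ (map_zero φ) (map_one φ)]
      refine ⟨⟨Matrix.of A, Matrix.of B, hAB, hBA⟩, ?_⟩
      apply Units.ext
      exact hA'
    intro q
    have h2 : q ∈ Subgroup.closure (T : Set Q) := by rw [hT]; exact Subgroup.mem_top q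
    exact h1 h2
  refine ⟨(MonoidHom.ofInjective hinj).symm.toMonoidHom.comp
    (ρ.codRestrict _ hmem), ?_⟩
  ext1 q
  have h3 := MulEquiv.apply_symm_apply (MonoidHom.ofInjective hinj) (ρ.codRestrict _ hmem q)
  exact congrArg Subtype.val h3

theorem pad : S_PAD := by
  intro p _ n
  have hc : CompactSpace (Matrix (Fin n) (Fin n) ℤ_[p]) :=
    inferInstanceAs (CompactSpace (Fin n → Fin n → ℤ_[p]))
  have ht : TotallyDisconnectedSpace (Matrix (Fin n) (Fin n) ℤ_[p]) :=
    inferInstanceAs (TotallyDisconnectedSpace (Fin n → Fin n → ℤ_[p]))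
  refine ⟨inferInstance, inferInstance, ?_, inferInstance⟩
  refine ⟨?_⟩
  refine isTotallyDisconnected_of_image
    (f := fun g : GL (Fin n) ℤ_[p] => (g : Matrix (Fin n) (Fin n) ℤ_[p]))
    Units.continuous_val.continuousOn Units.val_injective ?_
  exact isTotallyDisconnected_of_totallyDisconnectedSpace _

end Pool.Agent.K6.H77.LT
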