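import Pool.Agent.K6.H77.LT.Stm

/-!
# Piece LOC of project LT (helper70)
-/

set_option autoImplicit false

namespace Pool.Agent.K6.H77.LT

open Topology Matrix

namespace LocP

/-- Linear maps on matrices are continuous. -/
theorem cont_lin {F : Type} [Field F] [TopologicalSpace F] [IsTopologicalRing F] {n m : ℕ}
    (f : Matrix (Fin n) (Fin n) F →ₗ[F] (Fin m → F)) : Continuous f := by
  have h : (f : Matrix (Fin n) (Fin n) F → (Fin m → F)) =
      fun A => ∑ i, ∑ j, A i j • f (Matrix.single i j 1) := by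
    funext A
    conv_lhs => rw [matrix_eq_sum_single A]
    rw [map_sum]
    refine Finset.sum_congr rfl fun i _ => ?_
    rw [map_sum]
    refine Finset.sum_congr rfl fun j _ => ?_
    rw [← map_smul]
    congr 1
    rw [Matrix.smul_single]
    simp
  rw [h]
  refine continuous_finsetSum _ fun i _ => continuous_finsetSum _ fun j _ => ?_
  exact (continuous_id.matrix_elem i j).smul continuous_const

/-- conjugation by a unit -/
def Ad {F : Type} [Field F] {n : ℕ} (g : GL (Fin n) F) :
    Matrix (Fin n) (Fin n) F →ₗ[F] Matrix (Fin n) (Fin n) F where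
  toFun y := (g : Matrix (Fin n) (Fin n) F) * y * ((g⁻¹ : GL (Fin n) F) : Matrix (Fin n) (Fin n) F)
  map_add' x y := by rw [Matrix.mul_add, Matrix.add_mul]
  map_smul' r x := by simp

theorem Ad_apply {F : Type} [Field F] {n : ℕ} (g : GL (Fin n) F) (y : Matrix (Fin n) (Fin n) F) :
    Ad g y = (g : Matrix (Fin n) (Fin n) F) * y * ((g⁻¹ : GL (Fin n) F) : Matrix (Fin n) (Fin n) F) :=
  rfl

theorem Ad_one {F : Type} [Field F] {n : ℕ} : Ad (1 : GL (Fin n) F) = LinearMap.id := by
  ext1 y
  simp [Ad_apply]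

theorem Ad_mul {F : Type} [Field F] {n : ℕ} (g h : GL (Fin n) F) (y : Matrix (Fin n) (Fin n) F) :
    Ad (g * h) y = Ad g (Ad h y) := by
  simp only [Ad_apply, _root_.mul_inv_rev, Units.val_mul, Matrix.mul_assoc]

/-- `Ad g y = y` means that `g` and `y` commute -/
theorem Ad_eq_iff {F : Type} [Field F] {n : ℕ} (g : GL (Fin n) F) (y : Matrix (Fin n) (Fin n) F) :
    Ad g y = y ↔ (g : Matrix (Fin n) (Fin n) F) * y = y * (g : Matrix (Fin n) (Fin n) F) := by
  rw [Ad_apply]
  constructor
  · intro h
    have h1 := congrArg (fun z => z * (g : Matrix (Fin n) (Fin n) F)) h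
    simp only [Matrix.mul_assoc] at h1
    rw [← Units.val_mul g⁻¹ g, inv_mul_cancel, Units.val_one, Matrix.mul_one] at h1
    rw [h1]
  · intro h
    rw [h, Matrix.mul_assoc, ← Units.val_mul, mul_inv_cancel, Units.val_one, Matrix.mul_one]

end LocP

open LocP in
theorem loc : S_LOC := by
  intro H _ _ _ hN F _ _ _ _ _ n ρ hρ
  -- 1. the normal subgroup
  obtain ⟨C0, hC0, hC0n⟩ := exists_compact_mem_nhds (0 : F)
  have hV : {h : H | ∀ i j, ((ρ h : GL (Fin n) F) : Matrix (Fin n) (Fin n) F) i j - (1 : Matrix (Fin n) (Fin n) F) i j ∈ C0} ∈ 𝓝 (1 : H) := by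
    have hent : ∀ i j, Continuous fun h : H => ((ρ h : GL (Fin n) F) : Matrix (Fin n) (Fin n) F) i j - (1 : Matrix (Fin n) (Fin n) F) i j := by
      intro i j
      exact ((Units.continuous_val.comp hρ).matrix_elem i j).sub continuous_const
    have : {h : H | ∀ i j, ((ρ h : GL (Fin n) F) : Matrix (Fin n) (Fin n) F) i j - (1 : Matrix (Fin n) (Fin n) F) i j ∈ C0} =
        ⋂ i, ⋂ j, {h : H | ((ρ h : GL (Fin n) F) : Matrix (Fin n) (Fin n) F) i j - (1 : Matrix (Fin n) (Fin n) F) i j ∈ C0} := by
      ext h; simp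
    rw [this, Filter.iInter_mem]
    intro i
    rw [Filter.iInter_mem]
    intro j
    apply (hent i j).continuousAt.preimage_mem_nhds
    simpa using hC0n
  obtain ⟨N, hNn, hNo, hNV⟩ := hN _ hV
  -- the compact set of matrices
  set C1 : Set F := C0 ∪ (fun x => x + 1) '' C0 with hC1
  have hC1c : IsCompact C1 := hC0.union (hC0.image (continuous_id.add continuous_const))
  have hNent : ∀ x ∈ N, ∀ i j, ((ρ x : GL (Fin n) F) : Matrix (Fin n) (Fin n) F) i j ∈ C1 := by
    intro x hx i j
    have h1 : ((ρ x : GL (Fin n) F) : Matrix (Fin n) (Fin n) F) i j - (1 : Matrix (Fin n) (Fin n) F) i j ∈ C0 := hNV hx i j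
    rcases eq_or_ne i j with rfl | hij
    · right
      refine ⟨_, h1, ?_⟩
      rw [Matrix.one_apply_eq]
      exact sub_add_cancel _ _
    · left
      simpa [Matrix.one_apply_ne hij] using h1
  have hQ : IsCompact {A : Matrix (Fin n) (Fin n) F | ∀ i j, A i j ∈ C1} := by
    have h1 : IsCompact (Set.pi Set.univ fun _ : Fin n => Set.pi Set.univ fun _ : Fin n => C1) :=
      isCompact_univ_pi fun _ => isCompact_univ_pi fun _ => hC1c
    have h2 : {A : Matrix (Fin n) (Fin n) F | ∀ i j, A i j ∈ C1} =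
        (Set.pi Set.univ fun _ : Fin n => Set.pi Set.univ fun _ : Fin n => C1) := by
      refine Set.ext fun A => ?_
      constructor
      · intro hA i _ j _
        exact hA i j
      · intro hA i j
        exact hA i (Set.mem_univ i) j (Set.mem_univ j)
    rw [h2]
    exact h1
  -- 2. the span
  set S : Set (Matrix (Fin n) (Fin n) F) := {y | ∃ x ∈ N, ((ρ x : GL (Fin n) F) : Matrix (Fin n) (Fin n) F) = y} with hS
  obtain ⟨b, hbS, hbspan, hbind⟩ := exists_linearIndependent F S
  have hbfin : b.Finite := hbind.setFinite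
  have : Fintype b := hbfin.fintype
  set m₁ := Fintype.card b with hm₁
  let e : Fin m₁ ≃ b := (Fintype.equivFin b).symm
  set x : Fin m₁ → Matrix (Fin n) (Fin n) F := fun i => (e i : Matrix (Fin n) (Fin n) F) with hx
  have hxind : LinearIndependent F x := hbind.comp e e.injective
  have hxS : ∀ i, x i ∈ S := fun i => hbS (e i).2
  set L : (Fin m₁ → F) →ₗ[F] Matrix (Fin n) (Fin n) F := Fintype.linearCombination F x with hL
  have hLrange : LinearMap.range L = Submodule.span F S := by
    rw [hL, Fintype.range_linearCombination, ← hbspan]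
    congr 1
    rw [hx]
    ext y
    constructor
    · rintro ⟨i, rfl⟩; exact (e i).2
    · intro hy; exact ⟨e.symm ⟨y, hy⟩, by simp⟩
  have hLinj : Function.Injective L := hxind.fintypeLinearCombination_injective
  obtain ⟨π, hπ⟩ := L.exists_leftInverse_of_injective (LinearMap.ker_eq_bot.2 hLinj)
  have hπL : ∀ v, π (L v) = v := fun v => by
    have := LinearMap.congr_fun hπ v
    simpa using this
  have hLπ : ∀ y ∈ Submodule.span F S, L (π y) = y := by
    intro y hy
    rw [← hLrange] at hy
    obtain ⟨v, rfl⟩ := hy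
    rw [hπL]
  have hLmem : ∀ v, L v ∈ Submodule.span F S := fun v => by
    rw [← hLrange]; exact ⟨v, rfl⟩
  have hLe : ∀ j, L (Pi.single j 1) = x j := by
    intro j
    rw [hL, Fintype.linearCombination_apply_single, one_smul]
  -- 3. stability
  have hAdS : ∀ (h : H), ∀ y ∈ S, Ad (ρ h) y ∈ S := by
    rintro h y ⟨z, hz, rfl⟩
    refine ⟨h * z * h⁻¹, hNn.conj_mem z hz h, ?_⟩
    rw [Ad_apply, map_mul, map_mul, map_inv]
    rfl
  have hAdB : ∀ (h : H), ∀ y ∈ Submodule.span F S, Ad (ρ h) y ∈ Submodule.span F S := by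
    intro h y hy
    have : Submodule.span F S ≤ (Submodule.span F S).comap (Ad (ρ h)) := by
      rw [Submodule.span_le]
      intro y hy
      exact Submodule.subset_span (hAdS h y hy)
    exact this hy
  let c' : H →* Module.End F (Fin m₁ → F) :=
    { toFun := fun h => π ∘ₗ Ad (ρ h) ∘ₗ L
      map_one' := by
        refine LinearMap.ext fun v => ?_
        change π (Ad (ρ 1) (L v)) = v
        rw [map_one, Ad_one, LinearMap.id_apply, hπL]
      map_mul' := by
        intro g h
        refine LinearMap.ext fun v => ?_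
        change π (Ad (ρ (g * h)) (L v)) = π (Ad (ρ g) (L (π (Ad (ρ h) (L v)))))
        rw [hLπ _ (hAdB h _ (hLmem v)), map_mul, Ad_mul] }
  have hc' : ∀ h v, c' h v = π (Ad (ρ h) (L v)) := fun h v => rfl
  let cM : H →* Matrix (Fin m₁) (Fin m₁) F :=
    (LinearMap.toMatrixAlgEquiv' (R := F) (n := Fin m₁)).toAlgHom.toRingHom.toMonoidHom.comp c'
  have hcM : ∀ h i j, cM h i j = π (Ad (ρ h) (x j)) i := by
    intro h i j
    change LinearMap.toMatrixAlgEquiv' (c' h) i j = _
    rw [LinearMap.toMatrixAlgEquiv'_apply, hc', hLe]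
  let c : H →* GL (Fin m₁) F := cM.toHomUnits
  have hcval : ∀ h, ((c h : GL (Fin m₁) F) : Matrix (Fin m₁) (Fin m₁) F) = cM h := fun h => rfl
  have hcinv : ∀ h, (((c h)⁻¹ : GL (Fin m₁) F) : Matrix (Fin m₁) (Fin m₁) F) = cM h⁻¹ := by
    intro h
    rw [← map_inv]
    rfl
  have hcMcont : Continuous fun h => cM h := by
    refine continuous_matrix fun i j => ?_
    have h1 : (fun h => cM h i j) = fun h => π (Ad (ρ h) (x j)) i := by
      funext h; exact hcM h i j
    rw [h1]
    have h2 : Continuous fun h => Ad (ρ h) (x j) := by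
      have h3 : Continuous fun h => ((ρ h : GL (Fin n) F) : Matrix (Fin n) (Fin n) F) := Units.continuous_val.comp hρ
      have h4 : Continuous fun h => (((ρ h)⁻¹ : GL (Fin n) F) : Matrix (Fin n) (Fin n) F) :=
        Units.continuous_coe_inv.comp hρ
      simp only [Ad_apply]
      exact (h3.matrix_mul continuous_const).matrix_mul h4
    exact (continuous_apply i).comp ((cont_lin π).comp h2)
  have hccont : Continuous c := by
    rw [Units.continuous_iff]
    refine ⟨hcMcont, ?_⟩
    have : (fun h => (((c h)⁻¹ : GL (Fin m₁) F) : Matrix (Fin m₁) (Fin m₁) F)) =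
        fun h => cM h⁻¹ := by
      funext h; exact hcinv h
    rw [this]
    exact hcMcont.comp continuous_inv
  -- compactness
  set P : Set (Fin m₁ → F) := π '' {A : Matrix (Fin n) (Fin n) F | ∀ i j, A i j ∈ C1} with hP
  have hPc : IsCompact P := hQ.image (cont_lin π)
  set Q2 : Set (Matrix (Fin m₁) (Fin m₁) F) := {A | ∀ j, (fun i => A i j) ∈ P} with hQ2
  have hQ2c : IsCompact Q2 := by
    have h1 : IsCompact (Set.pi Set.univ fun _ : Fin m₁ => P) := isCompact_univ_pi fun _ => hPc
    have h2 : Continuous fun A : (Fin m₁ → Fin m₁ → F) =>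
        (Matrix.of fun i j => A j i : Matrix (Fin m₁) (Fin m₁) F) := by
      refine continuous_matrix fun i j => ?_
      exact (continuous_apply i).comp (continuous_apply j)
    have h3 := h1.image h2
    convert h3 using 1
    ext A
    constructor
    · intro hA
      refine ⟨fun j i => A i j, ?_, rfl⟩
      rw [Set.mem_univ_pi]
      exact hA
    · rintro ⟨A', hA', rfl⟩ j
      rw [Set.mem_univ_pi] at hA'
      exact hA' j
  have hcMQ : ∀ h, cM h ∈ Q2 := by
    intro h j
    obtain ⟨z, hz, hzx⟩ := hAdS h (x j) (hxS j)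
    refine ⟨Ad (ρ h) (x j), ?_, ?_⟩
    · rw [← hzx]; exact hNent z hz
    · funext i; exact (hcM h i j).symm
  -- 4. the commutant
  let B' : Submodule F (Matrix (Fin n) (Fin n) F) :=
    { carrier := {y | ∀ z ∈ N, Ad (ρ z) y = y}
      add_mem' := by
        intro a b ha hb z hz
        rw [map_add, ha z hz, hb z hz]
      zero_mem' := by intro z _; rw [map_zero]
      smul_mem' := by
        intro r a ha z hz
        rw [map_smul, ha z hz] }
  have hB' : ∀ y, y ∈ B' ↔ ∀ z ∈ N, Ad (ρ z) y = y := fun y => Iff.rfl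
  have hAdB' : ∀ h, ∀ y ∈ B', Ad (ρ h) y ∈ B' := by
    intro h y hy z hz
    have h1 : Ad (ρ z) (Ad (ρ h) y) = Ad (ρ h) (Ad (ρ (h⁻¹ * z * h)) y) := by
      rw [← Ad_mul, ← Ad_mul, ← map_mul, ← map_mul]
      congr 3
      group
    rw [h1, hy]
    have := hNn.conj_mem z hz h⁻¹
    simpa using this
  let d' : H →* Module.End F B' :=
    { toFun := fun h => (Ad (ρ h)).restrict (hAdB' h)
      map_one' := by
        refine LinearMap.ext fun v => Subtype.ext ?_
        change Ad (ρ 1) (v : Matrix (Fin n) (Fin n) F) = v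
        rw [map_one, Ad_one]; rfl
      map_mul' := by
        intro g h
        refine LinearMap.ext fun v => Subtype.ext ?_
        change Ad (ρ (g * h)) (v : Matrix (Fin n) (Fin n) F) = Ad (ρ g) (Ad (ρ h) (v : Matrix (Fin n) (Fin n) F))
        rw [map_mul, Ad_mul] }
  have hd' : ∀ h (v : B'), ((d' h v : B') : Matrix (Fin n) (Fin n) F) = Ad (ρ h) (v : Matrix (Fin n) (Fin n) F) := fun h v => rfl
  let bs := Module.finBasis F B'
  let dM : H →* Matrix (Fin (Module.finrank F B')) (Fin (Module.finrank F B')) F :=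
    (LinearMap.toMatrixAlgEquiv bs).toAlgHom.toRingHom.toMonoidHom.comp d'
  have hdM : ∀ h, dM h = LinearMap.toMatrixAlgEquiv bs (d' h) := fun h => rfl
  let d : H →* GL (Fin (Module.finrank F B')) F := dM.toHomUnits
  have hd1 : ∀ h, d h = 1 ↔ d' h = 1 := by
    intro h
    rw [Units.ext_iff]
    change dM h = 1 ↔ _
    rw [hdM]
    constructor
    · intro h1
      apply (LinearMap.toMatrixAlgEquiv bs).injective
      rw [h1, map_one]
    · intro h1
      rw [h1, map_one]
  have hNd : N ≤ d.ker := by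
    intro z hz
    rw [MonoidHom.mem_ker, hd1]
    refine LinearMap.ext fun v => Subtype.ext ?_
    rw [hd']
    exact v.2 z hz
  refine ⟨m₁, Module.finrank F B', c, d, hccont, ⟨Units.embedProduct _ ⁻¹' (Q2 ×ˢ (MulOpposite.unop ⁻¹' Q2)), ?_, ?_⟩, ?_, ?_⟩
  · have h1 : IsCompact (MulOpposite.unop ⁻¹' Q2) :=
      MulOpposite.opHomeomorph.symm.isCompact_preimage.2 hQ2c
    exact Units.isClosedEmbedding_embedProduct.isCompact_preimage (hQ2c.prod h1)
  · intro h
    refine ⟨?_, ?_⟩
    · exact hcMQ h
    · change (((c h)⁻¹ : GL (Fin m₁) F) : Matrix (Fin m₁) (Fin m₁) F) ∈ Q2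
      rw [hcinv]
      exact hcMQ _
  · exact Subgroup.isOpen_mono hNd hNo
  · intro u w hcu _ hcw hdw
    have key : ∀ u, c u = 1 → ((ρ u : GL (Fin n) F) : Matrix (Fin n) (Fin n) F) ∈ B' := by
      intro u hu z hz
      have h1 : cM u = 1 := by
        have := congrArg (fun g : GL (Fin m₁) F => (g : Matrix (Fin m₁) (Fin m₁) F)) hu
        simpa [hcval] using this
      have h2 : c' u = 1 := by
        apply (LinearMap.toMatrixAlgEquiv' (R := F) (n := Fin m₁)).injective
        rw [map_one]; exact h1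
      have h3 : ∀ y ∈ Submodule.span F S, Ad (ρ u) y = y := by
        intro y hy
        rw [← hLrange] at hy
        obtain ⟨v, rfl⟩ := hy
        have h4 := LinearMap.congr_fun h2 v
        rw [hc'] at h4
        have h5 := congrArg L h4
        rw [hLπ _ (hAdB u _ (hLmem v))] at h5
        exact h5
      have h6 := h3 _ (Submodule.subset_span ⟨z, hz, rfl⟩)
      rw [Ad_eq_iff] at h6 ⊢
      exact h6.symm
    have h7 := (hd1 w).1 hdw
    have h8 := LinearMap.congr_fun h7 ⟨_, key u hcu⟩
    have h9 := congrArg (fun v : B' => (v : Matrix (Fin n) (Fin n) F)) h8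
    simp only [hd'] at h9
    have h10 : Ad (ρ w) ((ρ u : GL (Fin n) F) : Matrix (Fin n) (Fin n) F) = ((ρ u : GL (Fin n) F) : Matrix (Fin n) (Fin n) F) := h9
    rw [Ad_eq_iff] at h10
    apply Units.ext
    rw [map_mul, map_mul, Units.val_mul, Units.val_mul]
    exact h10.symm

end Pool.Agent.K6.H77.LT
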