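import Pool.Agent.K6.H77.LT.Lin
import Pool.Agent.K6.H77.LT.Loc
import Pool.Agent.K6.H77.LT.Desc

/-!
# Project LT (helper77): representations of tempered fundamental groups
-/

set_option autoImplicit false

namespace Pool.Agent.K6.H77.LT

open Topology Matrix Pool.Agent.K6.H77.KT

open scoped commutatorElement

variable {G P Γ : Type} [Group G] [Group P] [TopologicalSpace P] [IsTopologicalGroup P]
  [Group Γ] [TopologicalSpace Γ] [IsTopologicalGroup Γ]

/-- The identity of a profinite group as a comparison homomorphism. -/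
theorem comp_id [CompactSpace P] [TotallyDisconnectedSpace P] {ι : G →* P} (hι : DenseRange ι) :
    Comparison ι (MonoidHom.id P) := by
  refine ⟨hι, ?_, continuous_id, ?_, ?_⟩
  · exact Function.surjective_id.denseRange
  · exact fun H hH _ => ⟨H, hH, Subgroup.comap_id H⟩
  · intro U hU
    obtain ⟨V, hVU, hVo, hV1⟩ := mem_nhds_iff.1 hU
    obtain ⟨N, hN⟩ := ProfiniteGrp.exist_openNormalSubgroup_sub_open_nhds_of_one hVo hV1
    have hNn : (N.toSubgroup).Normal := N.isNormal'
    have hNo : IsOpen ((N.toSubgroup : Subgroup P) : Set P) := N.isOpen'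
    refine ⟨N.toSubgroup, hNn, hNo, fun x hx => hVU (hN hx), ?_⟩
    have : Finite (P ⧸ N.toSubgroup) := Subgroup.quotient_finite_of_isOpen _ hNo
    infer_instance

/-- The homomorphisms with open kernel and virtually solvable image, for small subgroups. -/
theorem open_tf {ι : G →* P} {j : Γ →* P} (hG : IsKSpecialGroup G) (hc : Comparison ι j) :
    ∃ H₀ : Subgroup Γ, IsOpen (H₀ : Set Γ) ∧ H₀.FiniteIndex ∧
      ∀ H : Subgroup Γ, IsOpen (H : Set Γ) → H.FiniteIndex → H ≤ H₀ →
        (∀ (Q : Type) [Group Q] (f : H →* Q), IsOpen (f.ker : Set H) →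
          VirtSolvable f.range → Finite (⁅f.range, f.range⁆ : Subgroup Q)) ∧
        (∀ (Q : Type) [Group Q] [TopologicalSpace Q] [T2Space Q] (f : H →* Q), Continuous f →
          VirtSolvable f.range → Finite (⁅f.range, f.range⁆ : Subgroup Q)) := by
  obtain ⟨H₀, hH₀o, hH₀, hcore⟩ := hom_tf hG hc
  refine ⟨H₀, hH₀o, hH₀, fun H hHo hH hle => ⟨?_, ?_⟩⟩
  · intro Q _ f hf hs
    let _ : TopologicalSpace Q := ⊥
    have : DiscreteTopology Q := ⟨rfl⟩
    have hfc : Continuous f := continuous_of_ker f hf
    exact (hcore H hHo hH hle Q f hfc hs).1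
  · intro Q _ _ _ f hf hs
    exact (hcore H hHo hH hle Q f hf hs).1

/-- The homomorphisms with open kernel and virtually solvable image. -/
theorem open_ab {ι : G →* P} {j : Γ →* P} (hG : IsKSpecialGroup G) (hc : Comparison ι j)
    {H : Subgroup Γ} (hHo : IsOpen (H : Set Γ)) (hH : H.FiniteIndex) {Q : Type} [Group Q]
    (f : H →* Q) (hf : IsOpen (f.ker : Set H)) (hs : VirtSolvable f.range) :
    VirtAbelian f.range := by
  let _ : TopologicalSpace Q := ⊥
  have : DiscreteTopology Q := ⟨rfl⟩
  have hfc : Continuous f := continuous_of_ker f hf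
  exact hom_all hG hc H hHo hH Q f hfc hs

theorem vab_of_inj {ι : G →* P} {j : Γ →* P} {H : Subgroup Γ} (hH : H.FiniteIndex) {Q : Type}
    [Group Q] {f : H →* Q} (hf : Function.Injective f) (h : VirtAbelian f.range) :
    VirtAbelian Γ := by
  have h1 : VirtAbelian H := h.equiv (MonoidHom.ofInjective hf).symm
  have h4 : VirtAbelian (⊤ : Subgroup Γ) := VirtAbelian.of_sub (A := H) le_top (by
    rw [Subgroup.relIndex_top_right]
    exact hH.index_ne_zero) h1
  exact h4.equiv Subgroup.topEquiv

end Pool.Agent.K6.H77.LT
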