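import Pool.Agent.K6.H77.LT.Res0

/-!
# Project LT (helper77): classes of groups, representations in residue characteristic zero
-/

set_option autoImplicit false

namespace Pool.Agent.K6.H77.LT

open Topology Matrix Pool.Agent.K6.H77.KT

open Pool.Agent.N212.SG hiding VirtAbelian

open Pool.Agent.K6.H86.QS (VI Tame)

open Pool.Agent.K6.H54.TR (TreeUnbounded ElementaryOnTrees TreeAction stab)

open scoped commutatorElement

theorem cls_indicable {Q : Type} [Group Q] (h : Indicable Q) : Cls False False Q :=
  fun S hS hi => Or.inl (h S hS hi)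

theorem cls_ea {Q : Type} [Group Q] (h : ElemAmenable.{0} Q) : Cls False False Q :=
  cls_indicable (Pool.Agent.K6.H54.TR.indicable_ea Q h)

theorem cls_li {Q : Type} [Group Q] (h : LocallyIndicable Q) : Cls False False Q :=
  cls_indicable (Pool.Agent.K6.H54.TR.indicable_li Q h)

theorem cls_tame {Q : Type} [Group Q] (h : Tame Q) : Cls False True Q := by
  intro S hS hi
  rcases h S hS hi with h1 | h1
  · exact Or.inl h1
  · exact Or.inr (Or.inr ⟨trivial, h1⟩)

/-- Groups acting on finitely many trees, all of whose common stabilizers of vertices are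
`Indicable`. -/
theorem cls_tree {Q : Type} [Group Q] {I : Type} [Finite I] (a : I → TreeAction Q)
    (h : ∀ v : ∀ i, (a i).V, Indicable (stab a v)) : Cls True False Q := by
  intro S hS hinf
  by_cases hT : TreeUnbounded S
  · exact Or.inr (Or.inl ⟨trivial, hT⟩)
  left
  choose L hle hidx hfix using fun i => Pool.Agent.K6.H54.TR.exists_fix hT (a i)
  choose v hv using hfix
  set M : Subgroup Q := S ⊓ ⨅ i, L i with hM
  have hMS : M ≤ S := inf_le_left
  have hMidx : M.relIndex S ≠ 0 := by
    refine Subgroup.relIndex_inf_ne_zero ?_ (Subgroup.relIndex_iInf_ne_zero hidx)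
    rw [Subgroup.relIndex_self]
    exact one_ne_zero
  have hMst : M ≤ stab a v := fun x hx i => hv i x ((Subgroup.mem_iInf.1 hx.2) i)
  have hMfg := Pool.Agent.K6.H54.TR.fg_of_relIndex hMS hMidx hS
  have hMinf := Pool.Agent.K6.H54.TR.infinite_of_relIndex hMS hMidx hinf
  have e := Subgroup.subgroupOfEquivOfLe hMst
  have h1 : (M.subgroupOf (stab a v)).FG := Pool.Agent.N991.QS.subgroupOf_fg hMst hMfg
  have h2 : Infinite (M.subgroupOf (stab a v)) := Infinite.of_injective e.symm e.symm.injective
  have h3 : Pool.Agent.K6.H54.TR.VirtIndic M :=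
    Pool.Agent.K6.H54.TR.VirtIndic.equiv e (h v _ h1 h2)
  exact h3.of_le hMS hMidx

variable {G Γ : Type} [Group G] [Group Γ] [TopologicalSpace Γ] [IsTopologicalGroup Γ]

theorem cond_rep {h : G →* Γ} (hG : IsKSpecialGroup G) {n : ℕ} (hL : LinN n G)
    {H : Subgroup Γ} (hH : H.FiniteIndex) {F : Type} [Field F] [CharZero F]
    (ρ : H →* GL (Fin n) F) : Cond h ρ :=
  Or.inr (lin_alln desc hG.fg hL (Pool.Agent.K6.H86.QS.comap_fi h hH)
    (ρ.comp (h.subgroupComap H)))

end Pool.Agent.K6.H77.LT
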