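import Pool.Agent.K6.H77.LT.Vsk

/-!
# Project LT (helper77): extension of continuous homomorphisms to profinite groups
-/

set_option autoImplicit false

namespace Pool.Agent.K6.H77.LT

open Topology Pool.Agent.K6.H77.KT

variable {G P Γ : Type} [Group G] [Group P] [TopologicalSpace P] [IsTopologicalGroup P]
  [Group Γ] [TopologicalSpace Γ] [IsTopologicalGroup Γ]

/-- A continuous homomorphism from an open subgroup of finite index of `Γ` to a profinite group
induces one of a subgroup of finite index of `G`; if the image of the latter is virtually solvable,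
then so is the image of the former. -/
theorem ext_to [CompactSpace P] [T2Space P] {ι : G →* P} {j : Γ →* P} (hc : Comparison ι j)
    {H : Subgroup Γ} (hHo : IsOpen (H : Set Γ)) (hH : H.FiniteIndex) {V : Type} [Group V]
    [TopologicalSpace V] [IsTopologicalGroup V] [CompactSpace V] [T2Space V]
    [TotallyDisconnectedSpace V] (f : H →* V) (hf : Continuous f) :
    ∃ (G' : Subgroup G) (_ : G'.FiniteIndex) (σ : G' →* V),
      VirtSolvable σ.range → VirtSolvable f.range := by
  obtain ⟨P', hP'o, hP'⟩ := hc.open_sub H hHo hH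
  have hP'f : P'.FiniteIndex := open_fi hc.dense_j hP'o (by rw [hP']; exact hH)
  let Φ₀ : Subgroup (P × V) := ((j.comp H.subtype).prod f).range
  let Φ : Subgroup (P × V) := Φ₀.topologicalClosure
  have hΦc : IsClosed (Φ : Set (P × V)) := Φ₀.isClosed_topologicalClosure
  have hΦmem : ∀ h : H, (j h, f h) ∈ Φ := fun h => Φ₀.le_topologicalClosure ⟨h, rfl⟩
  -- existence
  have hex : ∀ x ∈ P', ∃ v : V, (x, v) ∈ Φ := by
    have h1 : IsCompact (Prod.fst '' (Φ : Set (P × V))) := hΦc.isCompact.image continuous_fst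
    have h2 : P' ≤ cl ((P'.comap j).map j) := by
      have h3 := open_le j (A := ⊤) hP'o (fun x _ => by
        change x ∈ closure (((⊤ : Subgroup Γ).map j : Subgroup P) : Set P)
        rw [← MonoidHom.range_eq_map]
        exact hc.dense_j x)
      rwa [top_inf_eq] at h3
    intro x hx
    have h3 : ((cl ((P'.comap j).map j) : Subgroup P) : Set P) ⊆ Prod.fst '' (Φ : Set (P × V)) := by
      refine closure_minimal ?_ h1.isClosed
      rintro _ ⟨h, hh, rfl⟩
      rw [hP'] at hh
      exact ⟨(j h, f ⟨h, hh⟩), hΦmem ⟨h, hh⟩, rfl⟩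
    obtain ⟨⟨y, v⟩, hyv, hyx⟩ := h3 (h2 hx)
    exact ⟨v, by rwa [← hyx]⟩
  -- the basic property
  have hCL : ∀ W : Subgroup V, W.Normal → IsOpen (W : Set V) → ∃ PW : Subgroup P,
      IsOpen (PW : Set P) ∧ ∀ (x : P) (v : V), (x, v) ∈ Φ → x ∈ PW → v ∈ W := by
    intro W hW hWo
    have hWf : W.FiniteIndex := by
      have := Subgroup.quotient_finite_of_isOpen W hWo
      exact Subgroup.finiteIndex_of_finite_quotient
    have hHW : ((W.comap f).map H.subtype).FiniteIndex :=
      Pool.Agent.N212.SG.map_finiteIndex hH (Pool.Agent.K6.H86.QS.comap_fi f hWf)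
    have hHWo : IsOpen ((((W.comap f).map H.subtype) : Subgroup Γ) : Set Γ) := by
      have h1 : IsOpen ((W.comap f : Subgroup H) : Set H) := hWo.preimage hf
      exact hHo.isOpenMap_subtype_val _ h1
    obtain ⟨PW, hPWo, hPW⟩ := hc.open_sub _ hHWo hHW
    refine ⟨PW, hPWo, fun x v hxv hx => ?_⟩
    have h1 : (x, v) ∈ closure (Φ₀ : Set (P × V)) := hxv
    rw [mem_closure_iff] at h1
    have h2 : IsOpen ((PW : Set P) ×ˢ ((fun y : V => v⁻¹ * y) ⁻¹' (W : Set V))) :=
      hPWo.prod (hWo.preimage (continuous_const.mul continuous_id))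
    obtain ⟨⟨y, w⟩, ⟨hy, hw⟩, h, hh⟩ := h1 _ h2 ⟨hx, by
      change v⁻¹ * v ∈ W
      rw [inv_mul_cancel]
      exact W.one_mem⟩
    have hy' : j h = y := congrArg Prod.fst hh
    have hw' : f h = w := congrArg Prod.snd hh
    have h3 : (h : Γ) ∈ PW.comap j := by
      change j h ∈ PW
      rw [hy']
      exact hy
    rw [hPW] at h3
    obtain ⟨h', hh', hhh⟩ := h3
    have h4 : h' = h := Subtype.ext hhh
    have h5 : f h ∈ W := h4 ▸ hh'
    have h6 : v⁻¹ * w ∈ W := hw
    rw [← hw'] at h6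
    have h7 := W.mul_mem h5 (W.inv_mem h6)
    rwa [mul_inv_rev, inv_inv, mul_inv_cancel_left] at h7
  -- small open normal subgroups of `V`
  have hsmall : ∀ U : Set V, IsOpen U → (1 : V) ∈ U → ∃ W : Subgroup V, W.Normal ∧
      IsOpen (W : Set V) ∧ (W : Set V) ⊆ U := by
    intro U hU h1
    obtain ⟨W, hW⟩ := ProfiniteGrp.exist_openNormalSubgroup_sub_open_nhds_of_one hU h1
    exact ⟨W.toSubgroup, W.isNormal', W.isOpen', hW⟩
  -- uniqueness
  have hun : ∀ (x : P) (v w : V), (x, v) ∈ Φ → (x, w) ∈ Φ → v = w := by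
    intro x v w hv hw
    have h1 : (1, v⁻¹ * w) ∈ Φ := by
      have h2 := Φ.mul_mem (Φ.inv_mem hv) hw
      have h3 : (x, v)⁻¹ * (x, w) = ((1 : P), v⁻¹ * w) := by
        ext
        · exact inv_mul_cancel x
        · rfl
      rwa [h3] at h2
    by_contra hne
    obtain ⟨W, hW, hWo, hWU⟩ := hsmall {v⁻¹ * w}ᶜ isOpen_compl_singleton (by
      intro h
      apply hne
      have h4 : (1 : V) = v⁻¹ * w := h
      rw [eq_inv_mul_iff_mul_eq, mul_one] at h4
      exact h4)
    obtain ⟨PW, -, hPW⟩ := hCL W hW hWo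
    exact hWU (hPW 1 _ h1 PW.one_mem) rfl
  -- the homomorphism
  choose! F hF using hex
  let G' : Subgroup G := P'.comap ι
  let σ : G' →* V :=
    { toFun := fun g => F (ι g)
      map_one' := by
        refine hun (ι (1 : G)) _ _ (hF _ (1 : G').2) ?_
        rw [map_one]
        exact Φ.one_mem
      map_mul' := fun g g' => by
        refine hun (ι ((g : G) * g')) _ _ (hF _ (g * g' : G').2) ?_
        rw [map_mul]
        exact Φ.mul_mem (hF _ g.2) (hF _ g'.2) }
  refine ⟨G', Pool.Agent.K6.H86.QS.comap_fi ι hP'f, σ, fun hσ => ?_⟩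
  -- the closure
  let C : Subgroup V := σ.range.topologicalClosure
  have hCs : VirtSolvable C := by
    refine dense_solvable (K := σ.range) (f := Subgroup.inclusion σ.range.le_topologicalClosure) ?_ hσ
    intro x
    have h1 : (x : V) ∈ closure ((σ.range : Subgroup V) : Set V) := x.2
    rw [closure_subtype]
    have h2 : (Subtype.val '' (Set.range (Subgroup.inclusion σ.range.le_topologicalClosure)) : Set V) =
        ((σ.range : Subgroup V) : Set V) := by
      ext y
      constructor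
      · rintro ⟨_, ⟨z, rfl⟩, rfl⟩
        exact z.2
      · intro hy
        exact ⟨⟨y, σ.range.le_topologicalClosure hy⟩, ⟨⟨y, hy⟩, rfl⟩, rfl⟩
    rw [h2]
    exact h1
  refine hCs.mono ?_
  rintro _ ⟨h, rfl⟩
  change f h ∈ closure ((σ.range : Subgroup V) : Set V)
  rw [mem_closure_iff]
  intro U hU hfU
  obtain ⟨W, hW, hWo, hWU⟩ := hsmall ((fun y : V => f h * y) ⁻¹' U)
    (hU.preimage (continuous_const.mul continuous_id)) (by
      change f h * 1 ∈ U
      rwa [mul_one])
  obtain ⟨PW, hPWo, hPW⟩ := hCL W hW hWo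
  have h1 : IsOpen ((fun y : P => (j h)⁻¹ * y) ⁻¹' ((PW ⊓ P' : Subgroup P) : Set P)) :=
    (hPWo.inter hP'o).preimage (continuous_const.mul continuous_id)
  obtain ⟨g, hg⟩ := hc.dense_ι.exists_mem_open h1 ⟨j h, by
    change (j h)⁻¹ * j h ∈ PW ⊓ P'
    rw [inv_mul_cancel]
    exact Subgroup.one_mem _⟩
  have hg' : (j h)⁻¹ * ι g ∈ PW ⊓ P' := hg
  have hjh : j h ∈ P' := by
    have h2 : (h : Γ) ∈ P'.comap j := by
      rw [hP']
      exact h.2
    exact h2
  have hgP : ι g ∈ P' := by
    have h2 := P'.mul_mem hjh hg'.2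
    rwa [mul_inv_cancel_left] at h2
  refine ⟨σ ⟨g, hgP⟩, ?_, ⟨g, hgP⟩, rfl⟩
  have h2 : ((j h)⁻¹ * ι g, (f h)⁻¹ * F (ι g)) ∈ Φ :=
    Φ.mul_mem (Φ.inv_mem (hΦmem h)) (hF _ hgP)
  have h3 := hWU (hPW _ _ h2 hg'.1)
  have h4 : f h * ((f h)⁻¹ * F (ι g)) ∈ U := h3
  rwa [mul_inv_cancel_left] at h4

end Pool.Agent.K6.H77.LT
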