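import Mathlib

/-!
# Project LT (helper77): linear representations of tempered fundamental groups. Statements.
-/

set_option autoImplicit false

namespace Pool.Agent.K6.H77.LT

open Topology Matrix

/-- LOC. A continuous representation `ρ` of a topological group with a basis of open normal subgroups
over a locally compact field: there are a continuous representation `c` with relatively compact image
and a representation `d` with open kernel such that `ρ` is commutative on the intersection of
their kernels. -/
def S_LOC : Prop :=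
  ∀ (H : Type) [Group H] [TopologicalSpace H] [IsTopologicalGroup H],
    (∀ U ∈ 𝓝 (1 : H), ∃ N : Subgroup H, N.Normal ∧ IsOpen (N : Set H) ∧ (N : Set H) ⊆ U) →
    ∀ (F : Type) [Field F] [TopologicalSpace F] [IsTopologicalRing F] [T2Space F]
      [LocallyCompactSpace F] (n : ℕ) (ρ : H →* GL (Fin n) F), Continuous ρ →
      ∃ (m₁ m₂ : ℕ) (c : H →* GL (Fin m₁) F) (d : H →* GL (Fin m₂) F),
        Continuous c ∧ (∃ K : Set (GL (Fin m₁) F), IsCompact K ∧ ∀ h : H, c h ∈ K) ∧
        IsOpen (d.ker : Set H) ∧
        ∀ x y : H, c x = 1 → d x = 1 → c y = 1 → d y = 1 → ρ (x * y) = ρ (y * x)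

/-- DESC. A representation of a finitely generated group over a field is defined over every ring which
contains a certain finite set. -/
def S_DESC : Prop :=
  ∀ (Q : Type) [Group Q], Group.FG Q → ∀ (k : Type) [Field k] (n : ℕ) (ρ : Q →* GL (Fin n) k),
    ∃ s : Finset k, ∀ (R : Type) [CommRing R] (φ : R →+* k), Function.Injective φ →
      (∀ x ∈ s, x ∈ φ.range) →
      ∃ ρ' : Q →* GL (Fin n) R, (Matrix.GeneralLinearGroup.map φ).comp ρ' = ρ

/-- PAD. The topological group `GL (Fin n) ℤ_[p]`. -/
def S_PAD : Prop :=
  ∀ (p : ℕ) [Fact p.Prime] (n : ℕ), CompactSpace (GL (Fin n) ℤ_[p]) ∧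
    T2Space (GL (Fin n) ℤ_[p]) ∧ TotallyDisconnectedSpace (GL (Fin n) ℤ_[p]) ∧
    IsTopologicalGroup (GL (Fin n) ℤ_[p])

end Pool.Agent.K6.H77.LT
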