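import Pool.Agent.K6.H77.LT.Ext
import Pool.Agent.K6.H77.LT.Stm
import Pool.Agent.N530.LS.A2
import Pool.Agent.N111.QC.Emb

/-!
# Project LT (helper77): linear representations
-/

set_option autoImplicit false

namespace Pool.Agent.K6.H77.LT

open Topology Matrix Pool.Agent.K6.H77.KT

/-- All complex linear representations of all subgroups of finite index have virtually solvable
images. -/
def LinSolvable (G : Type) [Group G] : Prop :=
  ∀ H : Subgroup G, H.FiniteIndex → ∀ (n : ℕ) (ρ : H →* GL (Fin n) ℂ), VirtSolvable ρ.range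

theorem map_inj {n : ℕ} {R S : Type} [CommRing R] [CommRing S] {φ : R →+* S}
    (hφ : Function.Injective φ) :
    Function.Injective (Matrix.GeneralLinearGroup.map (n := Fin n) φ) := by
  intro a b hab
  ext i j
  have h1 := congrArg (fun g : GL (Fin n) S => g i j) hab
  simp only [Matrix.GeneralLinearGroup.map_apply] at h1
  exact hφ h1

theorem ker_le_of_inj {A B C : Type} [Group A] [Group B] [Group C] {f : A →* B} {g : B →* C}
    (hg : Function.Injective g) : (g.comp f).ker ≤ f.ker := by
  intro x hx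
  have h1 : g (f x) = 1 := hx
  rw [← map_one g] at h1
  exact hg h1

/-- Representations over fields of characteristic zero. -/
theorem lin_alln (hdesc : S_DESC) {G : Type} [Group G] (hG : Group.FG G) {n : ℕ}
    (hL : ∀ H : Subgroup G, H.FiniteIndex → ∀ ρ : H →* GL (Fin n) ℂ, VirtSolvable ρ.range)
    {H : Subgroup G} (hH : H.FiniteIndex) {k : Type} [Field k] [CharZero k]
    (ρ : H →* GL (Fin n) k) : VirtSolvable ρ.range := by
  have hHf : Group.FG H := Subgroup.fg_of_index_ne_zero H
  obtain ⟨s, hs⟩ := hdesc H hHf k n ρ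
  let k₀ : Subfield k := Subfield.closure (s : Set k)
  obtain ⟨ρ', hρ'⟩ := hs k₀ k₀.subtype Subtype.val_injective
    (fun x hx => ⟨⟨x, Subfield.subset_closure hx⟩, rfl⟩)
  have hcard : Cardinal.mk k₀ ≤ Cardinal.continuum := by
    refine (Subfield.cardinalMk_closure_le_max (s : Set k)).trans (max_le ?_ ?_)
    · exact (Cardinal.mk_le_aleph0).trans Cardinal.aleph0_le_continuum
    · exact Cardinal.aleph0_le_continuum
  obtain ⟨e⟩ := Pool.Agent.N111.QC.exists_embed k₀ hcard
  have h1 := hL H hH ((Matrix.GeneralLinearGroup.map e).comp ρ')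
  refine range_ker ?_ h1
  refine (ker_le_of_inj (map_inj e.injective)).trans ?_
  intro x hx
  have h2 : ρ' x = 1 := hx
  rw [← hρ', MonoidHom.mem_ker, MonoidHom.comp_apply, h2, map_one]

theorem lin_all (hdesc : S_DESC) {G : Type} [Group G] (hG : Group.FG G) (hL : LinSolvable G)
    {H : Subgroup G} (hH : H.FiniteIndex) {k : Type} [Field k] [CharZero k] {n : ℕ}
    (ρ : H →* GL (Fin n) k) : VirtSolvable ρ.range :=
  lin_alln hdesc hG (fun H' hH' ρ' => hL H' hH' n ρ') hH ρ

/-- Cassels embedding for finitely generated subfields of arbitrary fields of characteristic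
zero. -/
theorem cassels_all {k : Type} [Field k] [CharZero k] (s : Finset k) :
    ∃ (p : ℕ) (_ : Fact p.Prime) (θ : Subfield.closure (s : Set k) →+* ℚ_[p]),
      ∀ x : Subfield.closure (s : Set k), (x : k) ∈ s → ‖θ x‖ ≤ 1 := by
  classical
  let k₀ : Subfield k := Subfield.closure (s : Set k)
  have hcard : Cardinal.mk k₀ ≤ Cardinal.continuum := by
    refine (Subfield.cardinalMk_closure_le_max (s : Set k)).trans (max_le ?_ ?_)
    · exact (Cardinal.mk_le_aleph0).trans Cardinal.aleph0_le_continuum
    · exact Cardinal.aleph0_le_continuum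
  obtain ⟨e⟩ := Pool.Agent.N111.QC.exists_embed k₀ hcard
  let s' : Finset ℂ := Finset.image (fun x : {x : k // x ∈ s} =>
    e (⟨(x : k), Subfield.subset_closure x.2⟩ : k₀)) s.attach
  obtain ⟨p, hp, -, σ, hσ⟩ := Pool.Agent.N530.LS.cassels_int s' 0
  have hes : ∀ (x : k) (hx : x ∈ s), e ⟨x, Subfield.subset_closure hx⟩ ∈ s' := by
    intro x hx
    exact Finset.mem_image.2 ⟨⟨x, hx⟩, Finset.mem_attach _ _, rfl⟩
  have hmem : ∀ x : k₀, e x ∈ Subfield.closure (s' : Set ℂ) := by
    rintro ⟨x, hx⟩
    induction hx using Subfield.closure_induction with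
    | mem x hx => exact Subfield.subset_closure (hes x hx)
    | one =>
      have : (⟨1, one_mem _⟩ : k₀) = 1 := rfl
      rw [this, map_one]
      exact one_mem _
    | add x y hx hy h1 h2 =>
      have : (⟨x + y, add_mem hx hy⟩ : k₀) = ⟨x, hx⟩ + ⟨y, hy⟩ := rfl
      rw [this, map_add]
      exact add_mem h1 h2
    | neg x hx h1 =>
      have : (⟨-x, neg_mem hx⟩ : k₀) = -⟨x, hx⟩ := rfl
      rw [this, map_neg]
      exact neg_mem h1
    | inv x hx h1 =>
      have : (⟨x⁻¹, inv_mem hx⟩ : k₀) = (⟨x, hx⟩ : k₀)⁻¹ := rfl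
      rw [this, map_inv₀]
      exact inv_mem h1
    | mul x y hx hy h1 h2 =>
      have : (⟨x * y, mul_mem hx hy⟩ : k₀) = ⟨x, hx⟩ * ⟨y, hy⟩ := rfl
      rw [this, map_mul]
      exact mul_mem h1 h2
  refine ⟨p, hp, σ.comp (e.codRestrict (Subfield.closure (s' : Set ℂ)) hmem), ?_⟩
  intro x hx
  exact hσ _ (hes x hx)

/-- If the kernel of `f` is contained in that of `g` and the image of `f` is finitely generated, so
is that of `g`. -/
theorem fg_range {A B C : Type} [Group A] [Group B] [Group C] {f : A →* B} {g : A →* C}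
    (h : f.ker ≤ g.ker) (hf : Group.FG f.range) : Group.FG g.range := by
  let φ : f.range →* g.range := ((QuotientGroup.quotientKerEquivRange g).toMonoidHom).comp
    ((QuotientGroup.map f.ker g.ker (MonoidHom.id A) h).comp
      (QuotientGroup.quotientKerEquivRange f).symm.toMonoidHom)
  have hφ : Function.Surjective φ := by
    intro y
    obtain ⟨z, rfl⟩ := (QuotientGroup.quotientKerEquivRange g).surjective y
    obtain ⟨x, rfl⟩ := QuotientGroup.mk_surjective z
    obtain ⟨w, hw⟩ := (QuotientGroup.quotientKerEquivRange f).symm.surjective (x : A ⧸ f.ker)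
    refine ⟨w, ?_⟩
    change (QuotientGroup.quotientKerEquivRange g) (QuotientGroup.map f.ker g.ker
      (MonoidHom.id A) h ((QuotientGroup.quotientKerEquivRange f).symm w)) = _
    rw [hw]
    rfl
  exact Group.fg_of_surjective hφ

variable {G P Γ : Type} [Group G] [Group P] [TopologicalSpace P] [IsTopologicalGroup P]
  [Group Γ] [TopologicalSpace Γ] [IsTopologicalGroup Γ]

/-- The images of homomorphisms with open kernel are finitely generated. -/
theorem fg_open {ι : G →* P} {j : Γ →* P} (hc : Comparison ι j) {H : Subgroup Γ}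
    (hHo : IsOpen (H : Set Γ)) (hH : H.FiniteIndex) {Q : Type} [Group Q] (f : H →* Q)
    (hf : IsOpen (f.ker : Set H)) : Group.FG f.range := by
  have h1 : IsOpen ((f.ker.map H.subtype : Subgroup Γ) : Set Γ) :=
    hHo.isOpenMap_subtype_val _ hf
  obtain ⟨N, hN, hNo, hNU, hNf⟩ := hc.basis _ (h1.mem_nhds (Subgroup.one_mem _))
  let q : Γ →* Γ ⧸ N := QuotientGroup.mk' N
  have h2 : (H.map q).FiniteIndex := map_fi (QuotientGroup.mk'_surjective N) hH
  have h3 : Group.FG (H.map q) := Subgroup.fg_of_index_ne_zero (H.map q)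
  have h4 : (q.comp H.subtype).range = H.map q := by
    rw [MonoidHom.range_comp, Subgroup.range_subtype]
  refine fg_range (f := q.comp H.subtype) ?_ (h4 ▸ h3)
  intro x hx
  have h5 : q (x : Γ) = 1 := hx
  have h6 : (x : Γ) ∈ N := (QuotientGroup.eq_one_iff _).1 h5
  obtain ⟨y, hy, hyx⟩ := hNU h6
  have h7 : y = x := Subtype.ext hyx
  exact h7 ▸ hy

/-- A homomorphism with open kernel is continuous. -/
theorem continuous_of_ker {A B : Type} [Group A] [TopologicalSpace A] [IsTopologicalGroup A]
    [Group B] [TopologicalSpace B] [IsTopologicalGroup B] (f : A →* B)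
    (hf : IsOpen (f.ker : Set A)) : Continuous f := by
  refine continuous_of_continuousAt_one f ?_
  rw [ContinuousAt, map_one]
  intro U hU
  refine Filter.mem_map.2 (Filter.mem_of_superset (hf.mem_nhds f.ker.one_mem) ?_)
  intro x hx
  have h1 : f x = 1 := hx
  change f x ∈ U
  rw [h1]
  exact mem_of_mem_nhds hU

/-- Representations with open kernel. -/
theorem lin_open (hdesc : S_DESC) (hpad : S_PAD) [CompactSpace P] [T2Space P] {ι : G →* P}
    {j : Γ →* P} (hG : Group.FG G) (hL : LinSolvable G) (hc : Comparison ι j) {H : Subgroup Γ}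
    (hHo : IsOpen (H : Set Γ)) (hH : H.FiniteIndex) {k : Type} [Field k] [CharZero k] {n : ℕ}
    (ρ : H →* GL (Fin n) k) (hρ : IsOpen (ρ.ker : Set H)) : VirtSolvable ρ.range := by
  obtain ⟨s, hs⟩ := hdesc ρ.range (fg_open hc hHo hH ρ hρ) k n ρ.range.subtype
  obtain ⟨p, hp, θ, hθ⟩ := cassels_all s
  let R : Subring (Subfield.closure (s : Set k)) := (PadicInt.subring p).comap θ
  obtain ⟨ρ', hρ'⟩ := hs R ((Subfield.closure (s : Set k)).subtype.comp R.subtype)
    (Subtype.val_injective.comp Subtype.val_injective)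
    (fun x hx => ⟨⟨⟨x, Subfield.subset_closure hx⟩, hθ _ hx⟩, rfl⟩)
  let θR : R →+* ℤ_[p] := (θ.comp R.subtype).codRestrict (PadicInt.subring p) fun x => x.2
  have hθR : Function.Injective θR := by
    intro x y hxy
    have h1 : θ (x : Subfield.closure (s : Set k)) = θ (y : Subfield.closure (s : Set k)) :=
      congrArg Subtype.val hxy
    exact Subtype.ext (θ.injective h1)
  let f₀ : ρ.range →* GL (Fin n) ℤ_[p] := (Matrix.GeneralLinearGroup.map θR).comp ρ'
  have hf₀ : Function.Injective f₀ := by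
    refine (map_inj hθR).comp ?_
    intro x y hxy
    have h1 : ρ.range.subtype x = ρ.range.subtype y := by
      rw [← hρ', MonoidHom.comp_apply, MonoidHom.comp_apply, hxy]
    exact Subtype.ext h1
  let f : H →* GL (Fin n) ℤ_[p] := f₀.comp ρ.rangeRestrict
  have hfρ : f.ker = ρ.ker := by
    apply le_antisymm
    · refine (ker_le_of_inj hf₀).trans ?_
      rw [MonoidHom.ker_rangeRestrict]
    · intro x hx
      have h1 : ρ.rangeRestrict x = 1 := Subtype.ext hx
      change f₀ (ρ.rangeRestrict x) = 1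
      rw [h1, map_one]
  obtain ⟨h1, h2, h3, h4⟩ := hpad p n
  have hf : Continuous f := continuous_of_ker f (by rw [hfρ]; exact hρ)
  obtain ⟨G', hG', σ, hσ⟩ := ext_to hc hHo hH f hf
  refine range_ker hfρ.le (hσ ?_)
  have h5 := lin_all hdesc hG hL hG'
    ((Matrix.GeneralLinearGroup.map (algebraMap ℤ_[p] ℚ_[p])).comp σ)
  exact range_ker (ker_le_of_inj (map_inj (IsFractionRing.injective ℤ_[p] ℚ_[p]))) h5

theorem td_of_inj {A B : Type} [TopologicalSpace A] [TopologicalSpace B]
    [TotallyDisconnectedSpace B] {f : A → B} (hf : Continuous f) (hi : Function.Injective f) :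
    TotallyDisconnectedSpace A := by
  rw [totallyDisconnectedSpace_iff_connectedComponent_subsingleton]
  intro x
  have h1 : (f '' connectedComponent x).Subsingleton :=
    (isPreconnected_connectedComponent.image f hf.continuousOn).subsingleton
  exact h1.preimage hi |>.anti (Set.subset_preimage_image f _)

theorem td_gl (F : Type) [Field F] [TopologicalSpace F] [TotallyDisconnectedSpace F] (n : ℕ) :
    TotallyDisconnectedSpace (GL (Fin n) F) := by
  have : TotallyDisconnectedSpace (Matrix (Fin n) (Fin n) F) :=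
    inferInstanceAs (TotallyDisconnectedSpace (Fin n → Fin n → F))
  exact td_of_inj (f := (Units.val : GL (Fin n) F → Matrix (Fin n) (Fin n) F))
    Units.continuous_val Units.val_injective

/-- Bounded representations. -/
theorem lin_bounded (hdesc : S_DESC) [CompactSpace P] [T2Space P] {ι : G →* P}
    {j : Γ →* P} (hG : Group.FG G) (hL : LinSolvable G) (hc : Comparison ι j) {H : Subgroup Γ}
    (hHo : IsOpen (H : Set Γ)) (hH : H.FiniteIndex) {F : Type} [Field F] [CharZero F]
    [TopologicalSpace F] [IsTopologicalRing F] [T2Space F] [TotallyDisconnectedSpace F] {n : ℕ}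
    (ρ : H →* GL (Fin n) F) (hρ : Continuous ρ)
    (hK : ∃ K : Set (GL (Fin n) F), IsCompact K ∧ ∀ h : H, ρ h ∈ K) : VirtSolvable ρ.range := by
  obtain ⟨K, hKc, hK⟩ := hK
  let V : Subgroup (GL (Fin n) F) := ρ.range.topologicalClosure
  have hVK : (V : Set (GL (Fin n) F)) ⊆ K := by
    refine closure_minimal ?_ hKc.isClosed
    rintro _ ⟨h, rfl⟩
    exact hK h
  have hVc : CompactSpace V := isCompact_iff_compactSpace.1
    (hKc.of_isClosed_subset ρ.range.isClosed_topologicalClosure hVK)
  have htd : TotallyDisconnectedSpace (GL (Fin n) F) := td_gl F n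
  have hVtd : TotallyDisconnectedSpace V :=
    td_of_inj (f := (Subtype.val : V → GL (Fin n) F)) continuous_subtype_val
      Subtype.val_injective
  let f : H →* V := ρ.codRestrict V fun h => ρ.range.le_topologicalClosure ⟨h, rfl⟩
  have hf : Continuous f := hρ.subtype_mk _
  obtain ⟨G', hG', σ, hσ⟩ := ext_to hc hHo hH f hf
  have h1 : VirtSolvable f.range := by
    refine hσ ?_
    have h2 := lin_all hdesc hG hL hG' (V.subtype.comp σ)
    exact range_ker (ker_le_of_inj V.subtype_injective) h2
  refine range_ker ?_ h1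
  intro x hx
  exact congrArg Subtype.val (hx : f x = 1)

/-- Representations over locally compact totally disconnected fields. -/
theorem lin_local (hdesc : S_DESC) (hpad : S_PAD) (hloc : S_LOC) [CompactSpace P] [T2Space P]
    {ι : G →* P} {j : Γ →* P} (hG : Group.FG G) (hL : LinSolvable G) (hc : Comparison ι j)
    {H : Subgroup Γ} (hHo : IsOpen (H : Set Γ)) (hH : H.FiniteIndex) {F : Type} [Field F]
    [CharZero F] [TopologicalSpace F] [IsTopologicalRing F] [T2Space F]
    [TotallyDisconnectedSpace F] [LocallyCompactSpace F] {n : ℕ} (ρ : H →* GL (Fin n) F)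
    (hρ : Continuous ρ) : VirtSolvable ρ.range := by
  obtain ⟨m₁, m₂, c, d, hcc, hK, hd, hcd⟩ := hloc H (by
    intro U hU
    obtain ⟨U', hU', hUU⟩ := mem_nhds_subtype (H : Set Γ) (1 : H) U |>.1 hU
    obtain ⟨N, hN, hNo, hNU, -⟩ := hc.basis U' hU'
    refine ⟨N.subgroupOf H, inferInstance, hNo.preimage continuous_subtype_val, ?_⟩
    intro x hx
    exact hUU (hNU hx)) F n ρ hρ
  have h1 := lin_bounded hdesc hG hL hc hHo hH c hcc hK
  have h2 := lin_open hdesc hpad hG hL hc hHo hH d hd
  refine range_of_vsk (((vsk_of_range h1).inf (vsk_of_range h2)).comm ?_)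
  intro x hx y hy
  have h3 := hcd x y hx.1 hx.2 hy.1 hy.2
  rw [MonoidHom.mem_ker, map_commutatorElement, commutatorElement_eq_one_iff_mul_comm, ← map_mul,
    ← map_mul, h3]

/-- Representations of the étale fundamental group. -/
theorem lin_etale (hdesc : S_DESC) [T2Space P] {ι : G →* P} (hι : DenseRange ι)
    (hG : Group.FG G) (hL : LinSolvable G) {H : Subgroup P} (hHo : IsOpen (H : Set P))
    (hH : H.FiniteIndex) {F : Type} [Field F] [CharZero F] [TopologicalSpace F]
    [IsTopologicalRing F] [T2Space F] {n : ℕ} (ρ : H →* GL (Fin n) F) (hρ : Continuous ρ) :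
    VirtSolvable ρ.range := by
  let G' : Subgroup G := H.comap ι
  have hG' : G'.FiniteIndex := Pool.Agent.K6.H86.QS.comap_fi ι hH
  let i : G' →* H := ι.subgroupComap H
  have hi : DenseRange i := by
    intro x
    rw [mem_closure_iff]
    intro U hU hxU
    obtain ⟨U', hU', rfl⟩ := isOpen_induced_iff.1 hU
    obtain ⟨g, hg⟩ := hι.exists_mem_open (hU'.inter hHo) ⟨(x : P), hxU, x.2⟩
    exact ⟨i ⟨g, hg.2⟩, hg.1, ⟨g, hg.2⟩, rfl⟩
  have h1 := lin_all hdesc hG hL hG' (ρ.comp i)
  let C : Subgroup (GL (Fin n) F) := (ρ.comp i).range.topologicalClosure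
  have h2 : VirtSolvable C := by
    refine dense_solvable (K := (ρ.comp i).range)
      (f := Subgroup.inclusion (ρ.comp i).range.le_topologicalClosure) ?_ h1
    intro x
    have h1 : (x : GL (Fin n) F) ∈ closure (((ρ.comp i).range : Subgroup (GL (Fin n) F)) :
      Set (GL (Fin n) F)) := x.2
    rw [closure_subtype]
    have h2 : (Subtype.val '' (Set.range
        (Subgroup.inclusion (ρ.comp i).range.le_topologicalClosure)) : Set (GL (Fin n) F)) =
        (((ρ.comp i).range : Subgroup (GL (Fin n) F)) : Set (GL (Fin n) F)) := by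
      ext y
      constructor
      · rintro ⟨_, ⟨z, rfl⟩, rfl⟩
        exact z.2
      · intro hy
        exact ⟨⟨y, (ρ.comp i).range.le_topologicalClosure hy⟩, ⟨⟨y, hy⟩, rfl⟩, rfl⟩
    rw [h2]
    exact h1
  refine h2.mono ?_
  rintro _ ⟨x, rfl⟩
  have h3 : ρ x ∈ closure (ρ '' Set.range i) := by
    exact (image_closure_subset_closure_image hρ) ⟨x, hi x, rfl⟩
  refine closure_mono ?_ h3
  rintro _ ⟨_, ⟨g, rfl⟩, rfl⟩
  exact ⟨g, rfl⟩

end Pool.Agent.K6.H77.LT
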