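import Mathlib

/-!
# Project LT (helper77): the complex general linear groups have no small subgroups
-/

set_option autoImplicit false

namespace Pool.Agent.K6.H77.LT

open Topology Matrix

variable {n : ℕ}

/-- The sum of the absolute values of the entries. -/
noncomputable def sm (x : Matrix (Fin n) (Fin n) ℂ) : ℝ := ∑ i, ∑ j, ‖x i j‖

theorem sm_nonneg (x : Matrix (Fin n) (Fin n) ℂ) : 0 ≤ sm x :=
  Finset.sum_nonneg fun _ _ => Finset.sum_nonneg fun _ _ => norm_nonneg _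

theorem sm_sub (x y : Matrix (Fin n) (Fin n) ℂ) : sm x - sm y ≤ sm (x + y) := by
  have h : sm x ≤ sm (x + y) + sm y := by
    unfold sm
    rw [← Finset.sum_add_distrib]
    refine Finset.sum_le_sum fun i _ => ?_
    rw [← Finset.sum_add_distrib]
    refine Finset.sum_le_sum fun j _ => ?_
    have h1 : x i j = (x + y) i j - y i j := by
      rw [Matrix.add_apply, add_sub_cancel_right]
    calc ‖x i j‖ = ‖(x + y) i j - y i j‖ := by rw [← h1]
      _ ≤ _ := norm_sub_le _ _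
  linarith

theorem sm_two (x : Matrix (Fin n) (Fin n) ℂ) : sm (x + x) = 2 * sm x := by
  unfold sm
  rw [Finset.mul_sum]
  refine Finset.sum_congr rfl fun i _ => ?_
  rw [Finset.mul_sum]
  refine Finset.sum_congr rfl fun j _ => ?_
  rw [Matrix.add_apply, ← two_mul, norm_mul]
  norm_num

theorem sm_mul (x y : Matrix (Fin n) (Fin n) ℂ) : sm (x * y) ≤ sm x * sm y := by
  have key : ∀ i, ∑ j, ‖(x * y) i j‖ ≤ (∑ k, ‖x i k‖) * ∑ k, ∑ j, ‖y k j‖ := by
    intro i
    calc ∑ j, ‖(x * y) i j‖ ≤ ∑ j, ∑ k, ‖x i k‖ * ‖y k j‖ := by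
          refine Finset.sum_le_sum fun j _ => ?_
          rw [Matrix.mul_apply]
          refine (norm_sum_le _ _).trans (Finset.sum_le_sum fun k _ => ?_)
          rw [norm_mul]
      _ = ∑ k, ∑ j, ‖x i k‖ * ‖y k j‖ := Finset.sum_comm
      _ ≤ ∑ k, ‖x i k‖ * ∑ k, ∑ j, ‖y k j‖ := by
          refine Finset.sum_le_sum fun k _ => ?_
          rw [← Finset.mul_sum]
          refine mul_le_mul_of_nonneg_left ?_ (norm_nonneg _)
          exact Finset.single_le_sum (f := fun k => ∑ j, ‖y k j‖)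
            (fun _ _ => Finset.sum_nonneg fun _ _ => norm_nonneg _) (Finset.mem_univ k)
      _ = _ := by rw [Finset.sum_mul]
  unfold sm
  rw [Finset.sum_mul]
  exact Finset.sum_le_sum fun i _ => key i

theorem nss_step (g : GL (Fin n) ℂ) (h : sm ((g : Matrix (Fin n) (Fin n) ℂ) - 1) ≤ 1 / 2) :
    3 / 2 * sm ((g : Matrix (Fin n) (Fin n) ℂ) - 1) ≤
      sm (((g ^ 2 : GL (Fin n) ℂ) : Matrix (Fin n) (Fin n) ℂ) - 1) := by
  set x : Matrix (Fin n) (Fin n) ℂ := (g : Matrix (Fin n) (Fin n) ℂ) - 1 with hx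
  have h1 : ((g ^ 2 : GL (Fin n) ℂ) : Matrix (Fin n) (Fin n) ℂ) - 1 = (x + x) + x * x := by
    have h2 : (g : Matrix (Fin n) (Fin n) ℂ) = x + 1 := by rw [hx, sub_add_cancel]
    rw [Units.val_pow_eq_pow_val, h2, pow_two]
    noncomm_ring
  rw [h1]
  have h3 := sm_sub (x + x) (x * x)
  rw [sm_two] at h3
  have h4 := sm_mul x x
  have h5 := sm_nonneg x
  nlinarith

/-- no small subgroups -/
theorem nss (N : Subgroup (GL (Fin n) ℂ))
    (h : ∀ g ∈ N, sm ((g : Matrix (Fin n) (Fin n) ℂ) - 1) ≤ 1 / 2) (g : GL (Fin n) ℂ)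
    (hg : g ∈ N) : g = 1 := by
  have h1 : ∀ k : ℕ, (3 / 2 : ℝ) ^ k * sm ((g : Matrix (Fin n) (Fin n) ℂ) - 1) ≤
      sm (((g ^ (2 ^ k) : GL (Fin n) ℂ) : Matrix (Fin n) (Fin n) ℂ) - 1) := by
    intro k
    induction k with
    | zero => simp
    | succ k ih =>
      have h2 := nss_step (g ^ (2 ^ k)) (h _ (N.pow_mem hg _))
      rw [← pow_mul, ← pow_succ] at h2
      refine le_trans ?_ h2
      rw [pow_succ (3 / 2 : ℝ) k]
      nlinarith
  have h2 : sm ((g : Matrix (Fin n) (Fin n) ℂ) - 1) = 0 := by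
    by_contra hne
    have hpos : 0 < sm ((g : Matrix (Fin n) (Fin n) ℂ) - 1) :=
      lt_of_le_of_ne (sm_nonneg _) (Ne.symm hne)
    obtain ⟨k, hk⟩ := pow_unbounded_of_one_lt (1 / sm ((g : Matrix (Fin n) (Fin n) ℂ) - 1))
      (by norm_num : (1 : ℝ) < 3 / 2)
    rw [div_lt_iff₀ hpos] at hk
    have h3 := (h1 k).trans (h _ (N.pow_mem hg _))
    linarith
  have h3 : (g : Matrix (Fin n) (Fin n) ℂ) - 1 = 0 := by
    ext i j
    have h4 := (Finset.sum_eq_zero_iff_of_nonneg (fun _ _ =>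
      Finset.sum_nonneg fun _ _ => norm_nonneg _)).1 h2 i (Finset.mem_univ i)
    have h5 := (Finset.sum_eq_zero_iff_of_nonneg (fun _ _ => norm_nonneg _)).1 h4 j
      (Finset.mem_univ j)
    exact norm_eq_zero.1 h5
  exact Units.ext (sub_eq_zero.1 h3)

/-- A continuous representation of a group with a basis of open subgroups has an open kernel. -/
theorem open_ker {H : Type} [Group H] [TopologicalSpace H] [IsTopologicalGroup H]
    (hb : ∀ U ∈ 𝓝 (1 : H), ∃ N : Subgroup H, IsOpen (N : Set H) ∧ (N : Set H) ⊆ U)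
    (ρ : H →* GL (Fin n) ℂ) (hρ : Continuous ρ) : IsOpen (ρ.ker : Set H) := by
  have hc : Continuous fun h : H => sm (((ρ h : GL (Fin n) ℂ) : Matrix (Fin n) (Fin n) ℂ) - 1) := by
    unfold sm
    refine continuous_finsetSum _ fun i _ => continuous_finsetSum _ fun j _ => ?_
    have h1 : Continuous fun h : H => ((ρ h : GL (Fin n) ℂ) : Matrix (Fin n) (Fin n) ℂ) :=
      Units.continuous_val.comp hρ
    have h2 : Continuous fun h : H => ((ρ h : GL (Fin n) ℂ) : Matrix (Fin n) (Fin n) ℂ) i j :=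
      (continuous_apply_apply i j).comp h1
    exact (h2.sub continuous_const).norm
  have hU : (fun h : H => sm (((ρ h : GL (Fin n) ℂ) : Matrix (Fin n) (Fin n) ℂ) - 1)) ⁻¹'
      Set.Iio (1 / 2) ∈ 𝓝 (1 : H) := by
    refine (isOpen_Iio.preimage hc).mem_nhds ?_
    change sm (((ρ 1 : GL (Fin n) ℂ) : Matrix (Fin n) (Fin n) ℂ) - 1) < 1 / 2
    rw [map_one, Units.val_one, sub_self]
    unfold sm
    simp
  obtain ⟨N, hNo, hNU⟩ := hb _ hU
  refine Subgroup.isOpen_mono (H₁ := N) ?_ hNo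
  intro x hx
  refine nss (N.map ρ) ?_ (ρ x) ⟨x, hx, rfl⟩
  rintro _ ⟨y, hy, rfl⟩
  exact le_of_lt (hNU hy)

end Pool.Agent.K6.H77.LT
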