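import Pool.Agent.K6.H77.LT.Tam
import Pool.Agent.K6.H77.LT.Rep

/-!
# Project LT (helper77): residue characteristic zero
-/

set_option autoImplicit false

namespace Pool.Agent.K6.H77.LT

open Topology Matrix Pool.Agent.K6.H77.KT

open Pool.Agent.N212.SG hiding VirtAbelian

open Pool.Agent.K6.H86.QS (VI)

open Pool.Agent.K6.H54.TR (TreeUnbounded ElementaryOnTrees)

open scoped commutatorElement

theorem vab_mono {Q : Type} [Group Q] {A B : Subgroup Q} (h : A ≤ B) (hB : VirtAbelian B) :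
    VirtAbelian A := by
  obtain ⟨S, hS, hSa⟩ := hB
  refine ⟨S.comap (Subgroup.inclusion h), Pool.Agent.K6.H86.QS.comap_fi _ hS, ?_⟩
  intro a ha b hb
  have h1 := hSa _ ha _ hb
  rw [← map_mul, ← map_mul] at h1
  exact Subgroup.inclusion_injective h h1

theorem dense_vab {P : Type} [Group P] [TopologicalSpace P] [IsTopologicalGroup P] [T2Space P]
    {K : Type} [Group K] {f : K →* P} (hf : DenseRange f) (h : VirtAbelian K) :
    VirtAbelian P := by
  obtain ⟨A, hA, hAa⟩ := h
  refine ⟨cl (A.map f), closure_fi hf hA, ?_⟩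
  have h1 : ⁅A.map f, A.map f⁆ ≤ (⊥ : Subgroup P) := by
    rw [Subgroup.commutator_le]
    rintro _ ⟨a, ha, rfl⟩ _ ⟨b, hb, rfl⟩
    rw [Subgroup.mem_bot, commutatorElement_eq_one_iff_mul_comm, ← map_mul, ← map_mul,
      hAa a ha b hb]
  have h2 : ⁅cl (A.map f), cl (A.map f)⁆ ≤ (⊥ : Subgroup P) :=
    (comm_closure h1).trans (cl_min le_rfl (by
      rw [Subgroup.coe_bot]
      exact isClosed_singleton))
  intro a ha b hb
  have h3 := h2 (Subgroup.commutator_mem_commutator ha hb)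
  rwa [Subgroup.mem_bot, commutatorElement_eq_one_iff_mul_comm] at h3

/-- The inclusion of a subgroup in its closure has dense image. -/
theorem dense_incl {P : Type} [Group P] [TopologicalSpace P] [IsTopologicalGroup P]
    (S : Subgroup P) : DenseRange (Subgroup.inclusion (le_cl S)) := by
  intro x
  have h1 : (x : P) ∈ closure (S : Set P) := x.2
  rw [closure_subtype]
  have h2 : (Subtype.val '' (Set.range (Subgroup.inclusion (le_cl S))) : Set P) = (S : Set P) := by
    ext y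
    constructor
    · rintro ⟨_, ⟨z, rfl⟩, rfl⟩
      exact z.2
    · intro hy
      exact ⟨⟨y, le_cl S hy⟩, ⟨⟨y, hy⟩, rfl⟩, rfl⟩
  rw [h2]
  exact h1

variable {G Γ : Type} [Group G] [Group Γ] [TopologicalSpace Γ] [IsTopologicalGroup Γ]

/-- The conditions on the homomorphism `f` from the subgroup `H` of `Γ`. -/
def Cond (h : G →* Γ) {H : Subgroup Γ} {Q : Type} [Group Q] (f : H →* Q) : Prop :=
  Cls (ElementaryOnTrees G) (∀ n, LinN n G) Q ∨ VirtSolvable (f.comp (h.subgroupComap H)).range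

theorem r0_small {h : G →* Γ} (hd : DenseRange h) (hG : IsKSpecialGroup G) :
    ∃ H₀ : Subgroup Γ, IsOpen (H₀ : Set Γ) ∧ H₀.FiniteIndex ∧
      ∀ H : Subgroup Γ, IsOpen (H : Set Γ) → H.FiniteIndex → H ≤ H₀ →
        ∀ (Q : Type) [Group Q] [TopologicalSpace Q] [IsTopologicalGroup Q] [T2Space Q]
          (f : H →* Q), Continuous f → Cond h f →
          Finite (⁅f.range, f.range⁆ : Subgroup Q) ∧ VirtAbelian f.range := by
  obtain ⟨G₀, hG₀, hcore⟩ := core_tame hG
  refine ⟨cl (G₀.map h), closure_open hd hG₀, closure_fi hd hG₀, ?_⟩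
  intro H hHo hH hle Q _ _ _ _ f hf hcond
  let G₁ : Subgroup G := G₀ ⊓ H.comap h
  have hHc : (H.comap h).FiniteIndex := Pool.Agent.K6.H86.QS.comap_fi h hH
  have hG₁ : G₁.FiniteIndex := inferInstanceAs (G₀ ⊓ H.comap h).FiniteIndex
  have hHG : H ≤ cl (G₁.map h) := open_le h hHo hle
  let i : G₁ →* H.comap h := Subgroup.inclusion inf_le_right
  let f₁ : G₁ →* Q := (f.comp (h.subgroupComap H)).comp i
  obtain ⟨h1, h2⟩ := hcore G₁ inf_le_left hG₁ Q f₁ (by
    refine hcond.imp_right fun h => h.mono ?_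
    rintro _ ⟨x, rfl⟩
    exact ⟨i x, rfl⟩)
  let C : Subgroup Q := cl f₁.range
  have hfC : f.range ≤ C := by
    rintro _ ⟨x, rfl⟩
    change f x ∈ closure ((f₁.range : Subgroup Q) : Set Q)
    rw [mem_closure_iff]
    intro U hU hxU
    obtain ⟨U', hU', hUU⟩ := isOpen_induced_iff.1 (hU.preimage hf)
    have hx1 : (x : Γ) ∈ closure ((G₁.map h : Subgroup Γ) : Set Γ) := hHG x.2
    rw [mem_closure_iff] at hx1
    have hxU' : (x : Γ) ∈ U' := by
      have : x ∈ Subtype.val ⁻¹' U' := by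
        rw [hUU]
        exact hxU
      exact this
    obtain ⟨_, hy, g, hg, rfl⟩ := hx1 U' hU' hxU'
    have hgU : (⟨h g, hg.2⟩ : H) ∈ f ⁻¹' U := by
      rw [← hUU]
      exact hy
    exact ⟨f ⟨h g, hg.2⟩, hgU, ⟨g, hg⟩, rfl⟩
  constructor
  · have h3 : ⁅f.range, f.range⁆ ≤ ⁅f₁.range, f₁.range⁆ := by
      refine (Subgroup.commutator_mono hfC hfC).trans ((comm_closure le_rfl).trans
        (cl_min le_rfl ?_))
      have h4 : ((⁅f₁.range, f₁.range⁆ : Subgroup Q) : Set Q).Finite := Set.toFinite _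
      exact h4.isClosed
    exact Finite.of_injective (Subgroup.inclusion h3) (Subgroup.inclusion_injective h3)
  · exact vab_mono hfC (dense_vab (dense_incl f₁.range) h2)

theorem Cond.restrict {h : G →* Γ} {H H' : Subgroup Γ} (hle : H' ≤ H) {Q : Type} [Group Q]
    {f : H →* Q} (hc : Cond h f) : Cond h (f.comp (Subgroup.inclusion hle)) := by
  refine hc.imp_right fun hc => hc.mono ?_
  rintro _ ⟨x, rfl⟩
  exact ⟨⟨x, hle x.2⟩, rfl⟩

theorem r0_all {h : G →* Γ} (hd : DenseRange h) (hG : IsKSpecialGroup G) {H : Subgroup Γ}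
    (hHo : IsOpen (H : Set Γ)) (hH : H.FiniteIndex) {Q : Type} [Group Q] [TopologicalSpace Q]
    [IsTopologicalGroup Q] [T2Space Q] (f : H →* Q) (hf : Continuous f) (hc : Cond h f) :
    VirtAbelian f.range := by
  obtain ⟨H₀, hH₀o, hH₀, hcore⟩ := r0_small hd hG
  have h1 : (H ⊓ H₀).FiniteIndex := inferInstance
  let i : (H ⊓ H₀ : Subgroup Γ) →* H := Subgroup.inclusion inf_le_left
  have hi : Continuous i := continuous_subtype_val.subtype_mk _
  have h2 : (f.comp i).range ≤ f.range := by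
    rintro _ ⟨x, rfl⟩
    exact ⟨i x, rfl⟩
  have h3 := (hcore (H ⊓ H₀) (hHo.inter hH₀o) h1 inf_le_right Q (f.comp i) (hf.comp hi)
    (hc.restrict inf_le_left)).2
  exact VirtAbelian.of_sub h2 (range_fi f i (by
    rw [incl_range H H₀]
    infer_instance)) h3

/-- The whole groups. -/
theorem vab_group (hG : IsKSpecialGroup G)
    (hc : Cls (ElementaryOnTrees G) (∀ n, LinN n G) G ∨ VirtSolvable G) : VirtAbelian G := by
  obtain ⟨G₀, hG₀, hcore⟩ := core_tame hG
  have h1 := (hcore G₀ le_rfl hG₀ G G₀.subtype (by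
    refine hc.imp_right fun h => ?_
    have h2 : VirtSolvable (⊤ : Subgroup G) := h.equiv Subgroup.topEquiv.symm
    exact h2.mono le_top)).2
  rw [Subgroup.range_subtype] at h1
  have h4 : VirtAbelian (⊤ : Subgroup G) := VirtAbelian.of_sub (A := G₀) le_top (by
    rw [Subgroup.relIndex_top_right]
    exact hG₀.index_ne_zero) h1
  exact h4.equiv Subgroup.topEquiv

end Pool.Agent.K6.H77.LT
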