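import Pool.Agent.K6.H77.LT.Vsk
import Pool.Agent.K6.H54.TR.Cls

/-!
# Project LT (helper77): tame quotients
-/

set_option autoImplicit false

namespace Pool.Agent.K6.H77.LT

open Topology Matrix Pool.Agent.K6.H77.KT

open Pool.Agent.N212.SG hiding VirtAbelian

open Pool.Agent.K6.H86.QS (VI)

open Pool.Agent.K6.H54.TR (TreeUnbounded ElementaryOnTrees)

open scoped commutatorElement

/-- The complex representations of dimension `n` of the subgroups of finite index have virtually
solvable images. -/
def LinN (n : ℕ) (G : Type) [Group G] : Prop :=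
  ∀ H : Subgroup G, H.FiniteIndex → ∀ ρ : H →* GL (Fin n) ℂ, VirtSolvable ρ.range

/-- The subgroup `S` of `Q` has an infinite image under a complex representation of a subgroup of
finite index of `Q`. -/
def CInfinite {Q : Type} [Group Q] (S : Subgroup Q) : Prop :=
  ∃ Q' : Subgroup Q, Q'.FiniteIndex ∧ ∃ (n : ℕ) (ρ : Q' →* GL (Fin n) ℂ),
    Infinite ((S.subgroupOf Q').map ρ)

/-- Every infinite finitely generated subgroup `S` of `Q` has a subgroup of finite index with infinite
abelianization, or, if `tr` is true, for some action of a subgroup `Q'` of finite index of `Q` on a tree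
no subgroup of finite index of `S ∩ Q'` fixes a vertex, or, if `lin` is true, `S` has an infinite image
under a complex representation of a subgroup of finite index of `Q`. -/
def Cls (tr lin : Prop) (Q : Type) [Group Q] : Prop :=
  ∀ S : Subgroup Q, S.FG → Infinite S → VI S ∨ (tr ∧ TreeUnbounded S) ∨ (lin ∧ CInfinite S)

theorem Cls.mono {tr tr' lin lin' : Prop} (h : tr → tr') (h' : lin → lin') {Q : Type} [Group Q]
    (hQ : Cls tr lin Q) : Cls tr' lin' Q := by
  intro S hS hi
  rcases hQ S hS hi with h1 | h1 | h1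
  · exact Or.inl h1
  · exact Or.inr (Or.inl ⟨h h1.1, h1.2⟩)
  · exact Or.inr (Or.inr ⟨h' h1.1, h1.2⟩)

theorem finite_fab_solv {R : Type} [Group R] (hfg : Group.FG R) (hs : VirtSolvable R)
    (hn : ¬ VI R) : Finite R := by
  obtain ⟨A, hA, hAs⟩ := hs
  obtain ⟨n, hn'⟩ := dser_eq_bot hAs
  have hAfg : Group.FG A := Subgroup.fg_of_index_ne_zero A
  have h1 : Finite A := by
    refine fsol A hAfg ⟨n, ?_⟩ ?_
    · have h2 : (dser (⊤ : Subgroup A) n).map A.subtype = dser A n := by
        rw [dser_map, ← MonoidHom.range_eq_map, Subgroup.range_subtype]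
      rw [hn'] at h2
      exact (Subgroup.map_eq_bot_iff_of_injective _ A.subtype_injective).1 h2
    · intro L hL f
      by_contra hf
      exact hn (Pool.Agent.K6.H86.QS.VI.of_sub hA ⟨L, hL, f, hf⟩)
  have h2 : Finite (R ⧸ A) := Subgroup.finite_quotient_of_finiteIndex
  exact Finite.of_equiv _ (Subgroup.groupEquivQuotientProdSubgroup (s := A)).symm

/-- The images of the finitely generated groups without virtually infinite abelianization. -/
theorem finite_image {G : Type} [Group G] {A : Subgroup G}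
    (hAfg : A.FG) (hA : ¬ VI A) {Q : Type} [Group Q] (f : G →* Q)
    (hQ : Cls (ElementaryOnTrees G) (∀ n, LinN n G) Q ∨ VirtSolvable f.range) :
    Finite (A.map f) := by
  rw [← not_infinite_iff_finite]
  intro hinf
  have hAfg' : Group.FG A := (Group.fg_iff_subgroup_fg A).2 hAfg
  have hSfg : (A.map f).FG := Pool.Agent.N991.QS.fg_map f hAfg
  have hVI : ¬ VI (A.map f) := fun h => hA (Pool.Agent.K6.H86.QS.VI.of_surj (f.subgroupMap A)
    (f.subgroupMap_surjective A) h)
  have hFA : Pool.Agent.K6.H86.QS.FAb A := by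
    intro L hL k
    by_contra hk
    exact hA ⟨L, hL, k, hk⟩
  rcases hQ with hQ | hQ
  rotate_left
  · have h1 : VirtSolvable (A.map f) := hQ.mono (by
      rintro _ ⟨x, _, rfl⟩
      exact ⟨x, rfl⟩)
    exact (not_finite_iff_infinite.2 hinf)
      (finite_fab_solv ((Group.fg_iff_subgroup_fg _).2 hSfg) h1 hVI)
  · rcases hQ _ hSfg hinf with h | ⟨ht, h⟩ | ⟨hL, Q', hQ', n, ρ, hρ⟩
    · exact hVI h
    · exact Pool.Agent.K6.H54.TR.treeUnbounded_false ht hAfg' hFA f h
    -- the representation of the inverse image of `Q'`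
    let G' : Subgroup G := Q'.comap f
    have hG' : G'.FiniteIndex := Pool.Agent.K6.H86.QS.comap_fi f hQ'
    let f' : G' →* Q' := f.subgroupComap Q'
    have h1 := hL n G' hG' (ρ.comp f')
    -- the image of `A ∩ G'`
    let A' : Subgroup A := G'.subgroupOf A
    have hA' : A'.FiniteIndex := inferInstance
    have hA'fg : Group.FG A' := Subgroup.fg_of_index_ne_zero A'
    let i : A' →* G' :=
      { toFun := fun x => ⟨((x : A) : G), x.2⟩
        map_one' := rfl
        map_mul' := fun _ _ => rfl }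
    have h2 : ((ρ.comp f').comp i).range = ((A.map f).subgroupOf Q').map ρ := by
      ext y
      constructor
      · rintro ⟨x, rfl⟩
        exact ⟨f' (i x), ⟨((x : A) : G), (x : A).2, rfl⟩, rfl⟩
      · rintro ⟨q, ⟨x, hx, hxq⟩, rfl⟩
        have hxG : x ∈ G' := by
          change f x ∈ Q'
          rw [hxq]
          exact q.2
        refine ⟨⟨⟨x, hx⟩, hxG⟩, ?_⟩
        change ρ (f' ⟨x, hxG⟩) = ρ q
        congr 1
        exact Subtype.ext hxq
    have h3 : VirtSolvable ((ρ.comp f').comp i).range := by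
      refine h1.mono ?_
      rintro _ ⟨x, rfl⟩
      exact ⟨i x, rfl⟩
    have h4 : Finite ((ρ.comp f').comp i).range := by
      refine finite_fab_solv (Group.fg_of_surjective
        ((ρ.comp f').comp i).rangeRestrict_surjective) h3 ?_
      intro h
      exact hA (Pool.Agent.K6.H86.QS.VI.of_sub hA' (Pool.Agent.K6.H86.QS.VI.of_surj _ ((ρ.comp f').comp i).rangeRestrict_surjective h))
    rw [h2] at h4
    exact (not_finite_iff_infinite.2 hρ) h4

theorem linN_sub {n : ℕ} {G : Type} [Group G] (hL : LinN n G) {H : Subgroup G}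
    (hH : H.FiniteIndex) : LinN n H := by
  intro H' hH' ρ
  let e : (H'.map H.subtype) ≃* H' :=
    (H'.equivMapOfInjective H.subtype H.subtype_injective).symm
  have h1 := hL _ (map_finiteIndex hH hH') (ρ.comp e.toMonoidHom)
  refine h1.mono ?_
  rintro _ ⟨x, rfl⟩
  exact ⟨e.symm x, congrArg ρ (e.apply_symm_apply x)⟩

/-- Quotients of the groups in question. -/
theorem core_tame {G : Type} [Group G] (hG : IsKSpecialGroup G) :
    ∃ G₀ : Subgroup G, G₀.FiniteIndex ∧ ∀ G₁ : Subgroup G, G₁ ≤ G₀ → G₁.FiniteIndex →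
      ∀ (Q : Type) [Group Q] (f : G₁ →* Q),
        (Cls (ElementaryOnTrees G) (∀ n, LinN n G) Q ∨ VirtSolvable f.range) →
        Finite (⁅f.range, f.range⁆ : Subgroup Q) ∧ VirtAbelian f.range := by
  obtain ⟨B, hB⟩ := hG.betti
  let T : Set ℕ := {n | ∃ H : Subgroup G, H.FiniteIndex ∧ Module.finrank ℂ (H1 H) = n}
  have hne : T.Nonempty := ⟨_, ⊤, inferInstance, rfl⟩
  have hbd : BddAbove T := ⟨B, by rintro n ⟨H, hH, rfl⟩; exact hB H hH⟩
  obtain ⟨H₀, hH₀, he⟩ := Nat.sSup_mem hne hbd
  have hmax : ∀ H : Subgroup G, H.FiniteIndex →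
      Module.finrank ℂ (H1 H) ≤ Module.finrank ℂ (H1 H₀) := by
    intro H hH
    rw [he]
    exact le_csSup hbd ⟨H, hH, rfl⟩
  refine ⟨H₀, hH₀, fun H hle hH Q _ f hQ => ?_⟩
  have hKH := isK_sub hG hH
  have hm : MaxBetti H := by
    intro H' h'
    rw [(h1Equiv (H'.equivMapOfInjective H.subtype H.subtype_injective)).symm.finrank_eq]
    refine (hmax _ (map_finiteIndex hH h')).trans ?_
    have h1 := (Pool.Agent.N615.SG.t_RES H₀ (isK_sub hG hH₀).fg (H.subgroupOf H₀)
      inferInstance).1
    rwa [(h1Equiv (Subgroup.subgroupOfEquivOfLe hle)).symm.finrank_eq] at h1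
  have hAfg : (albKer H).FG := hG.albanese H hH
  have hA : ¬ VI (albKer H) := by
    rintro ⟨L, hL, k, hk⟩
    exact hk (albKer_fab eig cinv Pool.Agent.N618.SG.t_CORE split Pool.Agent.N615.SG.t_RES hKH
      hAfg hm L hL k)
  have hfin : Finite ((albKer H).map f) := finite_image hAfg hA f
    (hQ.imp_left fun h => h.mono (fun h' => Pool.Agent.K6.H54.TR.trees_sub h' hH)
      fun h' n => linN_sub (h' n) hH)
  have hcomm : ∀ x y : H, x * y * x⁻¹ * y⁻¹ ∈ albKer H := fun x y => comm_mem_albKer x y
  constructor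
  · have h1 : ⁅f.range, f.range⁆ ≤ (albKer H).map f := by
      rw [Subgroup.commutator_le]
      rintro _ ⟨x, rfl⟩ _ ⟨y, rfl⟩
      exact ⟨x * y * x⁻¹ * y⁻¹, hcomm x y, by
        rw [commutatorElement_def, map_mul, map_mul, map_mul, map_inv, map_inv]⟩
    exact Finite.of_injective (Subgroup.inclusion h1) (Subgroup.inclusion_injective h1)
  · have hfgH := hKH.fg
    have hfg : Group.FG f.range := Group.fg_of_surjective f.rangeRestrict_surjective
    let F : Subgroup f.range := (albKer H).map f.rangeRestrict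
    have hF : Finite F := by
      let u : F → (albKer H).map f := fun x => ⟨((x : f.range) : Q), by
        obtain ⟨y, hy, hyx⟩ := x.2
        exact ⟨y, hy, congrArg Subtype.val hyx⟩⟩
      refine Finite.of_injective u ?_
      intro x y hxy
      have h1 : ((x : f.range) : Q) = ((y : f.range) : Q) :=
        congrArg (fun z : (albKer H).map f => (z : Q)) hxy
      exact Subtype.ext (Subtype.ext h1)
    have hcen := cen f.range hfg F hF (by
      rintro ⟨_, x, rfl⟩ ⟨_, y, rfl⟩
      exact ⟨x * y * x⁻¹ * y⁻¹, hcomm x y, Subtype.ext (by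
        change f (x * y * x⁻¹ * y⁻¹) = f x * f y * (f x)⁻¹ * (f y)⁻¹
        rw [map_mul, map_mul, map_mul, map_inv, map_inv])⟩)
    exact ⟨Subgroup.center f.range, hcen, fun a ha b hb => (Subgroup.mem_center_iff.1 ha b).symm⟩

end Pool.Agent.K6.H77.LT
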